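import Mathlib

/-! Counting functions that are monotone or antitone on each class of a bounded colouring. -/

open Finset

namespace Pool.Agent.V11161.OTCount

/-- monotone or antitone functions -/
abbrev MonoT (n : ℕ) := {g : Fin n → Fin (n + 1) // Monotone g ∨ Antitone g}

/-- the colours -/
abbrev K := Bool × SignType × Bool × Bool

theorem card_K : Fintype.card K = 24 := by decide

/-- functions that are monotone or antitone on each colour class of some colouring -/
def PM (n : ℕ) : Set (Fin n → Fin (n + 1)) :=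
  {ρ | ∃ κ : Fin n → K, ∀ c, MonotoneOn ρ {i | κ i = c} ∨ AntitoneOn ρ {i | κ i = c}}

noncomputable instance (n : ℕ) : Fintype (MonoT n) := Fintype.ofFinite _

noncomputable instance (n : ℕ) : Fintype (PM n) := Fintype.ofFinite _

theorem card_mono (n : ℕ) :
    Nat.card {g : Fin n → Fin (n + 1) // Monotone g} ≤ 2 ^ (2 * n + 1) := by
  have h : Nat.card (Finset (Fin (2 * n + 1))) = 2 ^ (2 * n + 1) := by
    rw [Nat.card_eq_fintype_card, Fintype.card_finset, Fintype.card_fin]
  rw [← h]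
  have hlt : ∀ (g : Fin n → Fin (n + 1)) (i : Fin n), (i : ℕ) + (g i : ℕ) < 2 * n + 1 := by
    intro g i
    have := i.2
    have := (g i).2
    omega
  let F : {g : Fin n → Fin (n + 1) // Monotone g} → (Fin n → Fin (2 * n + 1)) :=
    fun g i => ⟨(i : ℕ) + (g.1 i : ℕ), hlt g.1 i⟩
  have hF : ∀ g, StrictMono (F g) := by
    intro g i j hij
    have h1 : (i : ℕ) < (j : ℕ) := hij
    have h2 : (g.1 i : ℕ) ≤ (g.1 j : ℕ) := g.2 hij.le
    show (i : ℕ) + (g.1 i : ℕ) < (j : ℕ) + (g.1 j : ℕ)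
    omega
  apply Nat.card_le_card_of_injective (fun g => Finset.univ.image (F g))
  intro g g' hgg
  have hr : Set.range (F g) = Set.range (F g') := by
    have := congrArg (fun s : Finset (Fin (2 * n + 1)) => (s : Set (Fin (2 * n + 1)))) hgg
    simpa using this
  have he := (StrictMono.range_inj (hF g) (hF g')).1 hr
  apply Subtype.ext
  funext i
  have h1 := congrArg Fin.val (congrFun he i)
  apply Fin.ext
  simp only [F] at h1
  omega

theorem card_anti (n : ℕ) :
    Nat.card {g : Fin n → Fin (n + 1) // Antitone g} ≤ 2 ^ (2 * n + 1) := by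
  refine le_trans ?_ (card_mono n)
  apply Nat.card_le_card_of_injective
    (fun g : {g : Fin n → Fin (n + 1) // Antitone g} =>
      (⟨fun i => Fin.rev (g.1 i), fun i j hij => Fin.rev_le_rev.2 (g.2 hij)⟩ :
        {g : Fin n → Fin (n + 1) // Monotone g}))
  intro g g' h
  apply Subtype.ext
  funext i
  have := congrFun (Subtype.ext_iff.1 h) i
  exact Fin.rev_injective this

theorem card_MonoT (n : ℕ) : Fintype.card (MonoT n) ≤ 2 ^ (2 * n + 2) := by
  rw [← Nat.card_eq_fintype_card]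
  have h : Nat.card (MonoT n) ≤ Nat.card ({g : Fin n → Fin (n + 1) // Monotone g} ⊕
      {g : Fin n → Fin (n + 1) // Antitone g}) := by
    apply Nat.card_le_card_of_surjective
      (Sum.elim (fun g => (⟨g.1, Or.inl g.2⟩ : MonoT n)) (fun g => ⟨g.1, Or.inr g.2⟩))
    rintro ⟨g, hg | hg⟩
    · exact ⟨Sum.inl ⟨g, hg⟩, rfl⟩
    · exact ⟨Sum.inr ⟨g, hg⟩, rfl⟩
  rw [Nat.card_sum] at h
  have h1 := card_mono n
  have h2 := card_anti n
  have e : 2 ^ (2 * n + 2) = 2 ^ (2 * n + 1) + 2 ^ (2 * n + 1) := by ring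
  omega

theorem exists_mono_ext {n : ℕ} {ρ : Fin n → Fin (n + 1)} {s : Set (Fin n)}
    (h : MonotoneOn ρ s) : ∃ g : Fin n → Fin (n + 1), Monotone g ∧ ∀ i ∈ s, g i = ρ i := by
  classical
  refine ⟨fun i => (Finset.univ.filter (fun j => j ∈ s ∧ j ≤ i)).sup ρ, ?_, ?_⟩
  · intro i j hij
    apply Finset.sup_mono
    intro x hx
    simp only [Finset.mem_filter, Finset.mem_univ, true_and] at hx ⊢
    exact ⟨hx.1, hx.2.trans hij⟩
  · intro i hi
    apply le_antisymm
    · apply Finset.sup_le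
      intro j hj
      simp only [Finset.mem_filter, Finset.mem_univ, true_and] at hj
      exact h hj.1 hi hj.2
    · exact Finset.le_sup (f := ρ) (by simp [hi])

theorem exists_ext {n : ℕ} {ρ : Fin n → Fin (n + 1)} {s : Set (Fin n)}
    (h : MonotoneOn ρ s ∨ AntitoneOn ρ s) : ∃ g : MonoT n, ∀ i ∈ s, g.1 i = ρ i := by
  rcases h with h | h
  · obtain ⟨g, hg, he⟩ := exists_mono_ext h
    exact ⟨⟨g, Or.inl hg⟩, he⟩
  · have h' : MonotoneOn (fun i => Fin.rev (ρ i)) s := by
      intro i hi j hj hij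
      exact Fin.rev_le_rev.2 (h hi hj hij)
    obtain ⟨g, hg, he⟩ := exists_mono_ext h'
    refine ⟨⟨fun i => Fin.rev (g i), Or.inr ?_⟩, ?_⟩
    · intro i j hij
      exact Fin.rev_le_rev.2 (hg hij)
    · intro i hi
      simp [he i hi]

theorem card_PM (n : ℕ) : Fintype.card (PM n) ≤ 24 ^ n * (2 ^ (2 * n + 2)) ^ 24 := by
  have h : Fintype.card (PM n) ≤ Fintype.card ((Fin n → K) × (K → MonoT n)) := by
    rw [← Nat.card_eq_fintype_card, ← Nat.card_eq_fintype_card]
    have hch : ∀ ρ : PM n, ∃ x : (Fin n → K) × (K → MonoT n),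
        ∀ i, (x.2 (x.1 i)).1 i = ρ.1 i := by
      rintro ⟨ρ, κ, hκ⟩
      choose g hg using fun c => exists_ext (hκ c)
      exact ⟨(κ, g), fun i => hg (κ i) i rfl⟩
    choose F hF using hch
    apply Nat.card_le_card_of_injective F
    intro ρ ρ' h
    apply Subtype.ext
    funext i
    rw [← hF ρ i, ← hF ρ' i, h]
  refine h.trans ?_
  rw [Fintype.card_prod, Fintype.card_fun, Fintype.card_fun, card_K, Fintype.card_fin]
  exact Nat.mul_le_mul_left _ (Nat.pow_le_pow_left (card_MonoT n) _)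

/-- no strict valley gives an increasing part followed by a decreasing part -/
theorem peak {n : ℕ} (ρ : Fin n → Fin (n + 1)) (G : Set (Fin n))
    (h : ∀ a ∈ G, ∀ b ∈ G, ∀ c ∈ G, a < b → b < c → ¬ (ρ b < ρ a ∧ ρ b < ρ c)) :
    ∃ p : ℕ, MonotoneOn ρ {i | i ∈ G ∧ (i : ℕ) ≤ p} ∧ AntitoneOn ρ {i | i ∈ G ∧ ¬ (i : ℕ) ≤ p} := by
  classical
  by_cases hG : G.Nonempty
  · obtain ⟨p, hp, hmax⟩ := (Set.toFinite G).exists_maximalFor ρ G hG
    have hmax' : ∀ i ∈ G, ρ i ≤ ρ p := fun i hi => by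
      rcases le_total (ρ i) (ρ p) with h1 | h1
      · exact h1
      · exact hmax hi h1
    refine ⟨p, ?_, ?_⟩
    · rintro i ⟨hi, -⟩ j ⟨hj, hjp⟩ hij
      by_contra hlt
      push Not at hlt
      have hij' : i < j := lt_of_le_of_ne hij (fun e => by rw [e] at hlt; exact lt_irrefl _ hlt)
      have hjp' : j < p := by
        refine lt_of_le_of_ne (by exact_mod_cast hjp) (fun e => ?_)
        rw [e] at hlt
        exact absurd (hmax' i hi) (not_le.2 hlt)
      exact h i hi j hj p hp hij' hjp' ⟨hlt, lt_of_lt_of_le hlt (hmax' i hi)⟩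
    · rintro i ⟨hi, hip⟩ j ⟨hj, hjp⟩ hij
      by_contra hlt
      push Not at hlt
      have hij' : i < j := lt_of_le_of_ne hij (fun e => by rw [e] at hlt; exact lt_irrefl _ hlt)
      have hip' : p < i := by
        have : (p : ℕ) < (i : ℕ) := by omega
        exact this
      exact h p hp i hi j hj hip' hij' ⟨lt_of_lt_of_le hlt (hmax' j hj), hlt⟩
  · rw [Set.not_nonempty_iff_eq_empty] at hG
    subst hG
    exact ⟨0, fun i hi => absurd hi.1 (by simp), fun i hi => absurd hi.1 (by simp)⟩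

/-- no strict peak gives a decreasing part followed by an increasing part -/
theorem valley {n : ℕ} (ρ : Fin n → Fin (n + 1)) (G : Set (Fin n))
    (h : ∀ a ∈ G, ∀ b ∈ G, ∀ c ∈ G, a < b → b < c → ¬ (ρ a < ρ b ∧ ρ c < ρ b)) :
    ∃ p : ℕ, AntitoneOn ρ {i | i ∈ G ∧ (i : ℕ) ≤ p} ∧ MonotoneOn ρ {i | i ∈ G ∧ ¬ (i : ℕ) ≤ p} := by
  obtain ⟨p, h1, h2⟩ := peak (fun i => Fin.rev (ρ i)) G (by
    intro a ha b hb c hc hab hbc hh
    exact h a ha b hb c hc hab hbc ⟨Fin.rev_lt_rev.1 hh.1, Fin.rev_lt_rev.1 hh.2⟩)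
  refine ⟨p, ?_, ?_⟩
  · intro i hi j hj hij
    exact Fin.rev_le_rev.1 (h1 hi hj hij)
  · intro i hi j hj hij
    exact Fin.rev_le_rev.1 (h2 hi hj hij)

/-- sign-valued antisymmetric functions agreeing on sorted triples of `P` agree on `P` -/
theorem agree {n : ℕ} {F F' : Fin n → Fin n → Fin n → SignType}
    (h1 : ∀ i j l, F j i l = - F i j l) (h2 : ∀ i j l, F i l j = - F i j l)
    (h1' : ∀ i j l, F' j i l = - F' i j l) (h2' : ∀ i j l, F' i l j = - F' i j l)
    {P : Fin n → Prop}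
    (hs : ∀ i j l, P i → P j → P l → i < j → j < l → F i j l = F' i j l) :
    ∀ i j l, P i → P j → P l → F i j l = F' i j l := by
  have hz : ∀ x : SignType, x = - x → x = 0 := by decide
  have e1 : ∀ i l, F i i l = F' i i l := by
    intro i l
    rw [hz _ (h1 i i l), hz _ (h1' i i l)]
  have e2 : ∀ i l, F i l l = F' i l l := by
    intro i l
    rw [hz _ (h2 i l l), hz _ (h2' i l l)]
  have e3 : ∀ i l, F i l i = F' i l i := by
    intro i l
    rw [h2 i i l, h2' i i l, e1]
  intro i j l hi hj hl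
  rcases lt_trichotomy i j with hij | hij | hij
  · rcases lt_trichotomy j l with hjl | hjl | hjl
    · exact hs i j l hi hj hl hij hjl
    · rw [hjl]; exact e2 i l
    · rcases lt_trichotomy i l with hil | hil | hil
      · rw [h2 i l j, h2' i l j, hs i l j hi hl hj hil hjl]
      · rw [hil]; exact e3 l j
      · rw [h2 i l j, h1 l i j, h2' i l j, h1' l i j, hs l i j hl hi hj hil hij]
  · rw [hij]; exact e1 j l
  · rcases lt_trichotomy i l with hil | hil | hil
    · rw [h1 j i l, h1' j i l, hs j i l hj hi hl hij hil]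
    · rw [hil]; exact e3 l j
    · rcases lt_trichotomy j l with hjl | hjl | hjl
      · rw [h1 j i l, h2 j l i, h1' j i l, h2' j l i, hs j l i hj hl hi hjl hil]
      · rw [hjl]; exact e2 i l
      · rw [h1 j i l, h2 j l i, h1 l j i, h1' j i l, h2' j l i, h1' l j i,
          hs l j i hl hj hi hjl hij]

end Pool.Agent.V11161.OTCount
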