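import Mathlib
import Pool.Agent.V11161.OTCount

/-! Geometry of a convex position set seen from an extra point. -/

open Finset

namespace Pool.Agent.V11161.OTGeom

open Pool.Agent.V11161.OTCount

variable {n : ℕ}

/-- determinant in coordinates -/
def D (X Y : Fin n → ℝ) (i j l : Fin n) : ℝ :=
  (X j - X i) * (Y l - Y i) - (Y j - Y i) * (X l - X i)

/-- its sign -/
noncomputable def o3 (X Y : Fin n → ℝ) (i j l : Fin n) : SignType := SignType.sign (D X Y i j l)

theorem D_swap12 (X Y : Fin n → ℝ) (i j l : Fin n) : D X Y j i l = - D X Y i j l := by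
  simp only [D]; ring

theorem D_swap23 (X Y : Fin n → ℝ) (i j l : Fin n) : D X Y i l j = - D X Y i j l := by
  simp only [D]; ring

theorem o3_swap12 (X Y : Fin n → ℝ) (i j l : Fin n) : o3 X Y j i l = - o3 X Y i j l := by
  rw [o3, D_swap12, o3, Left.sign_neg]

theorem o3_swap23 (X Y : Fin n → ℝ) (i j l : Fin n) : o3 X Y i l j = - o3 X Y i j l := by
  rw [o3, D_swap23, o3, Left.sign_neg]

theorem o3_rot (X Y : Fin n → ℝ) (i j l : Fin n) : o3 X Y j l i = o3 X Y i j l := by
  rw [o3_swap23, o3_swap12, neg_neg]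

/-- slope from `q` to `i` -/
noncomputable def slo (X Y : Fin n → ℝ) (q i : Fin n) : ℝ := (Y i - Y q) / (X i - X q)

theorem slo_mul {X Y : Fin n → ℝ} (hX : StrictMono X) {q i : Fin n} (h : i ≠ q) :
    Y i - Y q = slo X Y q i * (X i - X q) := by
  have : X i - X q ≠ 0 := sub_ne_zero.2 (fun e => h (hX.injective e))
  rw [slo, div_mul_cancel₀ _ this]

theorem D_from {X Y : Fin n → ℝ} (hX : StrictMono X) {q i j : Fin n} (hi : i ≠ q) (hj : j ≠ q) :
    D X Y q i j = (X i - X q) * (X j - X q) * (slo X Y q j - slo X Y q i) := by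
  rw [D, slo_mul (Y := Y) hX hi, slo_mul (Y := Y) hX hj]; ring

theorem D_three {X Y : Fin n → ℝ} (hX : StrictMono X) {q a b c : Fin n} (ha : a ≠ q) (hb : b ≠ q)
    (hc : c ≠ q) : D X Y a b c =
      (slo X Y q a - slo X Y q b) * ((X a - X q) * (X c - X b)) +
      (slo X Y q c - slo X Y q b) * ((X c - X q) * (X b - X a)) := by
  have h1 := slo_mul (Y := Y) hX ha
  have h2 := slo_mul (Y := Y) hX hb
  have h3 := slo_mul (Y := Y) hX hc
  have e1 : Y a = Y q + slo X Y q a * (X a - X q) := by linarith
  have e2 : Y b = Y q + slo X Y q b * (X b - X q) := by linarith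
  have e3 : Y c = Y q + slo X Y q c * (X c - X q) := by linarith
  rw [D, e1, e2, e3]; ring

/-- right of `q`: a strict valley has positive orientation -/
theorem right_valley {X Y : Fin n → ℝ} (hX : StrictMono X) {q a b c : Fin n} (hqa : q < a)
    (hab : a < b) (hbc : b < c) (h1 : slo X Y q b < slo X Y q a) (h2 : slo X Y q b < slo X Y q c) :
    0 < D X Y a b c := by
  rw [D_three hX hqa.ne' (hqa.trans hab).ne' ((hqa.trans hab).trans hbc).ne']
  have := hX hqa
  have := hX hab
  have := hX hbc
  have p1 : 0 < (X a - X q) * (X c - X b) := mul_pos (by linarith) (by linarith)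
  have p2 : 0 < (X c - X q) * (X b - X a) := mul_pos (by linarith) (by linarith)
  have p3 := mul_pos (sub_pos.2 h1) p1
  have p4 := mul_pos (sub_pos.2 h2) p2
  linarith

theorem right_peak {X Y : Fin n → ℝ} (hX : StrictMono X) {q a b c : Fin n} (hqa : q < a)
    (hab : a < b) (hbc : b < c) (h1 : slo X Y q a < slo X Y q b) (h2 : slo X Y q c < slo X Y q b) :
    D X Y a b c < 0 := by
  rw [D_three hX hqa.ne' (hqa.trans hab).ne' ((hqa.trans hab).trans hbc).ne']
  have := hX hqa
  have := hX hab
  have := hX hbc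
  have p1 : 0 < (X a - X q) * (X c - X b) := mul_pos (by linarith) (by linarith)
  have p2 : 0 < (X c - X q) * (X b - X a) := mul_pos (by linarith) (by linarith)
  have p3 := mul_neg_of_neg_of_pos (sub_neg.2 h1) p1
  have p4 := mul_neg_of_neg_of_pos (sub_neg.2 h2) p2
  linarith

theorem left_valley {X Y : Fin n → ℝ} (hX : StrictMono X) {q a b c : Fin n}
    (hab : a < b) (hbc : b < c) (hcq : c < q) (h1 : slo X Y q b < slo X Y q a)
    (h2 : slo X Y q b < slo X Y q c) : D X Y a b c < 0 := by
  rw [D_three hX ((hab.trans hbc).trans hcq).ne (hbc.trans hcq).ne hcq.ne]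
  have := hX hcq
  have := hX hab
  have := hX hbc
  have p1 : (X a - X q) * (X c - X b) < 0 := mul_neg_of_neg_of_pos (by linarith) (by linarith)
  have p2 : (X c - X q) * (X b - X a) < 0 := mul_neg_of_neg_of_pos (by linarith) (by linarith)
  have p3 := mul_neg_of_pos_of_neg (sub_pos.2 h1) p1
  have p4 := mul_neg_of_pos_of_neg (sub_pos.2 h2) p2
  linarith

theorem left_peak {X Y : Fin n → ℝ} (hX : StrictMono X) {q a b c : Fin n}
    (hab : a < b) (hbc : b < c) (hcq : c < q) (h1 : slo X Y q a < slo X Y q b)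
    (h2 : slo X Y q c < slo X Y q b) : 0 < D X Y a b c := by
  rw [D_three hX ((hab.trans hbc).trans hcq).ne (hbc.trans hcq).ne hcq.ne]
  have := hX hcq
  have := hX hab
  have := hX hbc
  have p1 : (X a - X q) * (X c - X b) < 0 := mul_neg_of_neg_of_pos (by linarith) (by linarith)
  have p2 : (X c - X q) * (X b - X a) < 0 := mul_neg_of_neg_of_pos (by linarith) (by linarith)
  have p3 := mul_pos_of_neg_of_neg (sub_neg.2 h1) p1
  have p4 := mul_pos_of_neg_of_neg (sub_neg.2 h2) p2
  linarith

open Classical in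
/-- the rank of the slope of `i` among the points of `P`; `0` off `P` -/
noncomputable def rk (X Y : Fin n → ℝ) (P : Set (Fin n)) (q i : Fin n) : Fin (n + 1) :=
  if i ∈ P then
    ⟨(univ.filter (fun j => j ∈ P ∧ slo X Y q j < slo X Y q i)).card, by
      have := Finset.card_le_univ (univ.filter (fun j => j ∈ P ∧ slo X Y q j < slo X Y q i))
      rw [Fintype.card_fin] at this
      omega⟩
  else 0

theorem rk_lt_iff {X Y : Fin n → ℝ} {P : Set (Fin n)} {q i j : Fin n} (hi : i ∈ P) (hj : j ∈ P) :
    rk X Y P q i < rk X Y P q j ↔ slo X Y q i < slo X Y q j := by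
  classical
  simp only [rk, hi, hj, if_true]
  constructor
  · intro h
    by_contra hle
    push Not at hle
    have h1 : (univ.filter (fun l => l ∈ P ∧ slo X Y q l < slo X Y q i)).card <
        (univ.filter (fun l => l ∈ P ∧ slo X Y q l < slo X Y q j)).card := by
      convert h using 1 <;> simp
    have h2 := Finset.card_le_card (show univ.filter (fun l => l ∈ P ∧ slo X Y q l < slo X Y q j) ⊆
        univ.filter (fun l => l ∈ P ∧ slo X Y q l < slo X Y q i) by
      intro l hl
      simp only [Finset.mem_filter, Finset.mem_univ, true_and] at hl ⊢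
      exact ⟨hl.1, lt_of_lt_of_le hl.2 hle⟩)
    omega
  · intro h
    have h1 : (univ.filter (fun l => l ∈ P ∧ slo X Y q l < slo X Y q i)).card <
        (univ.filter (fun l => l ∈ P ∧ slo X Y q l < slo X Y q j)).card := by
      apply Finset.card_lt_card
      rw [Finset.ssubset_iff_of_subset]
      · refine ⟨i, by simp [hi, h], by simp⟩
      · intro l hl
        simp only [Finset.mem_filter, Finset.mem_univ, true_and] at hl ⊢
        exact ⟨hl.1, hl.2.trans h⟩
    show (_ : ℕ) < _
    convert h1 using 1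

/-- the chain signs of the points of `P` -/
def Chains (X Y : Fin n → ℝ) (P : Set (Fin n)) (s : Fin n → SignType) : Prop :=
  (∀ i ∈ P, ∀ j ∈ P, ∀ l ∈ P, i < j → j < l → o3 X Y i j l = s j) ∧
  (∀ i ∈ P, ∀ j ∈ P, ∀ l ∈ P, i < j → j < l → o3 X Y i j l ≠ 0)

theorem rk_mem_PM {X Y : Fin n → ℝ} (hX : StrictMono X) {P : Set (Fin n)} {s : Fin n → SignType}
    (hs : Chains X Y P s) {q : Fin n} (hq : q ∉ P) : rk X Y P q ∈ PM n := by
  classical
  -- the group with chain sign `o` and side `e` (`true` = right of `q`)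
  let G : SignType → Bool → Set (Fin n) := fun o e => {i | i ∈ P ∧ s i = o ∧ decide (q < i) = e}
  have hgr : ∀ o e, ∃ p : ℕ,
      (MonotoneOn (rk X Y P q) {i | i ∈ G o e ∧ (i : ℕ) ≤ p} ∨
        AntitoneOn (rk X Y P q) {i | i ∈ G o e ∧ (i : ℕ) ≤ p}) ∧
      (MonotoneOn (rk X Y P q) {i | i ∈ G o e ∧ ¬ (i : ℕ) ≤ p} ∨
        AntitoneOn (rk X Y P q) {i | i ∈ G o e ∧ ¬ (i : ℕ) ≤ p}) := by
    intro o e
    have hP : ∀ i ∈ G o e, i ∈ P := fun i hi => hi.1
    have hpk : (∀ a ∈ G o e, ∀ b ∈ G o e, ∀ c ∈ G o e, a < b → b < c →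
        ¬ (rk X Y P q b < rk X Y P q a ∧ rk X Y P q b < rk X Y P q c)) ∨
        (∀ a ∈ G o e, ∀ b ∈ G o e, ∀ c ∈ G o e, a < b → b < c →
        ¬ (rk X Y P q a < rk X Y P q b ∧ rk X Y P q c < rk X Y P q b)) := by
      have side : ∀ i ∈ G o e, e = true → q < i := by
        intro i hi he
        have := hi.2.2
        rw [he] at this
        exact of_decide_eq_true this
      have side' : ∀ i ∈ G o e, e = false → i < q := by
        intro i hi he
        have h1 := hi.2.2
        rw [he] at h1
        have h2 : ¬ q < i := of_decide_eq_false h1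
        exact lt_of_le_of_ne (not_lt.1 h2) (fun h => hq (h ▸ hi.1))
      have hor : ∀ a ∈ G o e, ∀ b ∈ G o e, ∀ c ∈ G o e, a < b → b < c →
          SignType.sign (D X Y a b c) = o ∧ SignType.sign (D X Y a b c) ≠ 0 := by
        intro a ha b hb c hc hab hbc
        have h1 := hs.1 a ha.1 b hb.1 c hc.1 hab hbc
        have h2 := hs.2 a ha.1 b hb.1 c hc.1 hab hbc
        rw [o3] at h1 h2
        exact ⟨h1.trans hb.2.1, h2⟩
      cases e with
      | true =>
        by_cases ho : o = 1
        · right
          rintro a ha b hb c hc hab hbc ⟨h1, h2⟩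
          rw [rk_lt_iff ha.1 hb.1] at h1
          rw [rk_lt_iff hc.1 hb.1] at h2
          have h3 := right_peak hX (side a ha rfl) hab hbc h1 h2
          have h4 := (hor a ha b hb c hc hab hbc).1
          rw [sign_neg h3, ho] at h4
          exact absurd h4 (by decide)
        · left
          rintro a ha b hb c hc hab hbc ⟨h1, h2⟩
          rw [rk_lt_iff hb.1 ha.1] at h1
          rw [rk_lt_iff hb.1 hc.1] at h2
          have h3 := right_valley hX (side a ha rfl) hab hbc h1 h2
          have h4 := (hor a ha b hb c hc hab hbc).1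
          rw [sign_pos h3] at h4
          exact ho h4.symm
      | false =>
        by_cases ho : o = 1
        · left
          rintro a ha b hb c hc hab hbc ⟨h1, h2⟩
          rw [rk_lt_iff hb.1 ha.1] at h1
          rw [rk_lt_iff hb.1 hc.1] at h2
          have h3 := left_valley hX hab hbc (side' c hc rfl) h1 h2
          have h4 := (hor a ha b hb c hc hab hbc).1
          rw [sign_neg h3, ho] at h4
          exact absurd h4 (by decide)
        · right
          rintro a ha b hb c hc hab hbc ⟨h1, h2⟩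
          rw [rk_lt_iff ha.1 hb.1] at h1
          rw [rk_lt_iff hc.1 hb.1] at h2
          have h3 := left_peak hX hab hbc (side' c hc rfl) h1 h2
          have h4 := (hor a ha b hb c hc hab hbc).1
          rw [sign_pos h3] at h4
          exact ho h4.symm
    rcases hpk with h | h
    · obtain ⟨p, h1, h2⟩ := peak _ _ h
      exact ⟨p, Or.inl h1, Or.inr h2⟩
    · obtain ⟨p, h1, h2⟩ := valley _ _ h
      exact ⟨p, Or.inr h1, Or.inl h2⟩
  choose p hp1 hp2 using hgr
  refine ⟨fun i => (decide (i ∈ P), s i, decide (q < i),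
    decide ((i : ℕ) ≤ p (s i) (decide (q < i)))), ?_⟩
  rintro ⟨c1, c2, c3, c4⟩
  cases c1 with
  | false =>
    left
    intro i hi j hj _
    simp only [Set.mem_ofPred_eq, Prod.mk.injEq, decide_eq_false_iff_not] at hi hj
    simp [rk, hi.1, hj.1]
  | true =>
    cases c4 with
    | true =>
      have hsub : {i : Fin n | (decide (i ∈ P), s i, decide (q < i),
          decide ((i : ℕ) ≤ p (s i) (decide (q < i)))) = (true, c2, c3, true)} ⊆
          {i | i ∈ G c2 c3 ∧ (i : ℕ) ≤ p c2 c3} := by
        intro i hi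
        simp only [Set.mem_ofPred_eq, Prod.mk.injEq] at hi
        obtain ⟨h1, h2, h3, h4⟩ := hi
        rw [h2, h3] at h4
        exact ⟨⟨of_decide_eq_true h1, h2, h3⟩, of_decide_eq_true h4⟩
      rcases hp1 c2 c3 with h | h
      · exact Or.inl (h.mono hsub)
      · exact Or.inr (h.mono hsub)
    | false =>
      have hsub : {i : Fin n | (decide (i ∈ P), s i, decide (q < i),
          decide ((i : ℕ) ≤ p (s i) (decide (q < i)))) = (true, c2, c3, false)} ⊆
          {i | i ∈ G c2 c3 ∧ ¬ (i : ℕ) ≤ p c2 c3} := by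
        intro i hi
        simp only [Set.mem_ofPred_eq, Prod.mk.injEq] at hi
        obtain ⟨h1, h2, h3, h4⟩ := hi
        rw [h2, h3] at h4
        exact ⟨⟨of_decide_eq_true h1, h2, h3⟩, of_decide_eq_false h4⟩
      rcases hp2 c2 c3 with h | h
      · exact Or.inl (h.mono hsub)
      · exact Or.inr (h.mono hsub)

end Pool.Agent.V11161.OTGeom
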