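import Mathlib
import Pool.Agent.V11161.OTGeom

/-! Codes of labelled configurations. -/

open Finset

namespace Pool.Agent.V11161.OTCode

open Pool.Agent.V11161.OTCount Pool.Agent.V11161.OTGeom

variable {n k : ℕ}

/-- sheared first coordinate -/
def XX (p : Fin n → ℝ × ℝ) (t : ℝ) (i : Fin n) : ℝ := (p i).1 + t * (p i).2

/-- second coordinate -/
def YY (p : Fin n → ℝ × ℝ) (i : Fin n) : ℝ := (p i).2

theorem D_XX (p : Fin n → ℝ × ℝ) (t : ℝ) (i j l : Fin n) : D (XX p t) (YY p) i j l =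
    ((p j).1 - (p i).1) * ((p l).2 - (p i).2) - ((p j).2 - (p i).2) * ((p l).1 - (p i).1) := by
  simp only [D, XX, YY]; ring

/-- a point of the segment at a given abscissa -/
theorem seg_point {p : Fin n → ℝ × ℝ} {t : ℝ} (hX : StrictMono (XX p t)) {i j l : Fin n}
    (hij : i < j) (hjl : j < l) {s : Set (ℝ × ℝ)} (hi : p i ∈ s) (hl : p l ∈ s) :
    ∃ y : ℝ, (XX p t j - t * y, y) ∈ convexHull ℝ s ∧
      D (XX p t) (YY p) i j l = (XX p t l - XX p t i) * (y - YY p j) := by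
  have h1 := hX hij
  have h2 := hX hjl
  have hd : 0 < XX p t l - XX p t i := by linarith
  set lam : ℝ := (XX p t l - XX p t j) / (XX p t l - XX p t i) with hlam
  have hl0 : 0 ≤ lam := div_nonneg (by linarith) hd.le
  have hl1 : 0 ≤ 1 - lam := by
    rw [hlam, sub_nonneg, div_le_one hd]; linarith
  refine ⟨lam * YY p i + (1 - lam) * YY p l, ?_, ?_⟩
  · have hm := (convex_convexHull ℝ s) (subset_convexHull ℝ s hi) (subset_convexHull ℝ s hl)
      hl0 hl1 (by ring)
    convert hm using 1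
    have hx : lam * XX p t i + (1 - lam) * XX p t l = XX p t j := by
      rw [hlam]; field_simp; ring
    ext
    · simp only [Prod.fst_add, Prod.smul_fst, smul_eq_mul]
      simp only [XX, YY] at hx ⊢
      linarith
    · simp only [Prod.snd_add, Prod.smul_snd, smul_eq_mul, YY]
  · rw [hlam, D]
    field_simp
    ring

theorem cross {p : Fin n → ℝ × ℝ} {t : ℝ} (hX : StrictMono (XX p t)) {i i' j l l' : Fin n}
    (hij : i < j) (hjl : j < l) (hij' : i' < j) (hjl' : j < l') {s : Set (ℝ × ℝ)}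
    (hi : p i ∈ s) (hl : p l ∈ s) (hi' : p i' ∈ s) (hl' : p l' ∈ s) (hj : p j ∉ convexHull ℝ s)
    (h1 : 0 ≤ D (XX p t) (YY p) i j l) (h2 : D (XX p t) (YY p) i' j l' ≤ 0) : False := by
  obtain ⟨y1, hm1, e1⟩ := seg_point hX hij hjl hi hl
  obtain ⟨y2, hm2, e2⟩ := seg_point hX hij' hjl' hi' hl'
  have g1 := hX hij
  have g2 := hX hjl
  have g1' := hX hij'
  have g2' := hX hjl'
  have f1 : 0 ≤ y1 - YY p j := by
    rw [e1] at h1
    exact nonneg_of_mul_nonneg_right h1 (by linarith)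
  have f2 : y2 - YY p j ≤ 0 := by
    rw [e2] at h2
    by_contra hpos
    push Not at hpos
    have := mul_pos (show 0 < XX p t l' - XX p t i' by linarith) hpos
    linarith
  apply hj
  have hpj : p j = (XX p t j - t * YY p j, YY p j) := by
    ext
    · simp [XX, YY]
    · simp [YY]
  rcases (show y2 ≤ y1 by linarith).eq_or_lt with he | hlt
  · have : YY p j = y1 := by linarith
    rw [hpj, this]; exact hm1
  · have hden : 0 < y1 - y2 := by linarith
    have hm := (convex_convexHull ℝ s) hm1 hm2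
      (show (0 : ℝ) ≤ (YY p j - y2) / (y1 - y2) from div_nonneg (by linarith) hden.le)
      (show (0 : ℝ) ≤ (y1 - YY p j) / (y1 - y2) from div_nonneg (by linarith) hden.le)
      (by field_simp; ring)
    rw [hpj]
    convert hm using 1
    ext
    · simp only [Prod.fst_add, Prod.smul_fst, smul_eq_mul]; field_simp; ring
    · simp only [Prod.snd_add, Prod.smul_snd, smul_eq_mul]; field_simp; ring

theorem chains_of_hull {p : Fin n → ℝ × ℝ} {t : ℝ} (hX : StrictMono (XX p t)) {P : Set (Fin n)}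
    (hP : ∀ j ∈ P, p j ∉ convexHull ℝ (p '' (P \ {j}))) :
    ∃ s, Chains (XX p t) (YY p) P s := by
  classical
  have key : ∀ j ∈ P, ∀ i ∈ P, ∀ l ∈ P, ∀ i' ∈ P, ∀ l' ∈ P, i < j → j < l → i' < j → j < l' →
      0 ≤ D (XX p t) (YY p) i j l → D (XX p t) (YY p) i' j l' ≤ 0 → False := by
    intro j hj i hi l hl i' hi' l' hl' h1 h2 h3 h4 h5 h6
    refine cross hX h1 h2 h3 h4 (s := p '' (P \ {j})) ?_ ?_ ?_ ?_ (hP j hj) h5 h6
    · exact ⟨i, ⟨hi, h1.ne⟩, rfl⟩
    · exact ⟨l, ⟨hl, h2.ne'⟩, rfl⟩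
    · exact ⟨i', ⟨hi', h3.ne⟩, rfl⟩
    · exact ⟨l', ⟨hl', h4.ne'⟩, rfl⟩
  have hne : ∀ i ∈ P, ∀ j ∈ P, ∀ l ∈ P, i < j → j < l → o3 (XX p t) (YY p) i j l ≠ 0 := by
    intro i hi j hj l hl hij hjl h0
    rw [o3, sign_eq_zero_iff] at h0
    exact key j hj i hi l hl i hi l hl hij hjl hij hjl h0.ge h0.le
  have hex : ∀ j, ∃ s : SignType, ∀ i ∈ P, ∀ l ∈ P, j ∈ P → i < j → j < l →
      o3 (XX p t) (YY p) i j l = s := by
    intro j
    by_cases h : ∃ i l, i ∈ P ∧ l ∈ P ∧ j ∈ P ∧ i < j ∧ j < l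
    · obtain ⟨i, l, hi, hl, hj, hij, hjl⟩ := h
      refine ⟨o3 (XX p t) (YY p) i j l, ?_⟩
      intro i' hi' l' hl' _ hij' hjl'
      rcases lt_trichotomy (D (XX p t) (YY p) i j l) 0 with h0 | h0 | h0
      · have : D (XX p t) (YY p) i' j l' < 0 := by
          by_contra hc
          push Not at hc
          exact key j hj i' hi' l' hl' i hi l hl hij' hjl' hij hjl hc h0.le
        rw [o3, o3, sign_neg h0, sign_neg this]
      · exact absurd (by rw [o3, h0, sign_zero]) (hne i hi j hj l hl hij hjl)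
      · have : 0 < D (XX p t) (YY p) i' j l' := by
          by_contra hc
          push Not at hc
          exact key j hj i hi l hl i' hi' l' hl' hij hjl hij' hjl' h0.le hc
        rw [o3, o3, sign_pos h0, sign_pos this]
    · refine ⟨0, fun i hi l hl hj hij hjl => absurd ⟨i, l, hi, hl, hj, hij, hjl⟩ h⟩
  choose s hs using hex
  exact ⟨s, fun i hi j hj l hl hij hjl => hs j i hi l hl hj hij hjl, hne⟩

/-- the type of codes -/
abbrev Code (k n : ℕ) := (Fin n → SignType) × (Fin k → Fin n) × (Fin k → PM n) ×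
  (Fin k → Fin k → Fin n → SignType)

/-- `X, Y` realise a code -/
def Real' (X Y : Fin n → ℝ) (c : Code k n) : Prop :=
  StrictMono X ∧
  (∀ i j l, (∀ t, c.2.1 t ≠ i) → (∀ t, c.2.1 t ≠ j) → (∀ t, c.2.1 t ≠ l) → i < j → j < l →
    o3 X Y i j l = c.1 j) ∧
  (∀ t i j, (∀ t', c.2.1 t' ≠ i) → (∀ t', c.2.1 t' ≠ j) →
    ((c.2.2.1 t).1 i < (c.2.2.1 t).1 j ↔ slo X Y (c.2.1 t) i < slo X Y (c.2.1 t) j)) ∧
  (∀ t t' i, o3 X Y (c.2.1 t) (c.2.1 t') i = c.2.2.2 t t' i)

theorem sign_sub_eq {X X' : Fin n → ℝ} (hX : StrictMono X) (hX' : StrictMono X') (i j : Fin n) :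
    SignType.sign (X i - X j) = SignType.sign (X' i - X' j) := by
  rcases lt_trichotomy i j with h | h | h
  · rw [sign_neg (sub_neg.2 (hX h)), sign_neg (sub_neg.2 (hX' h))]
  · rw [h, sub_self, sub_self]
  · rw [sign_pos (sub_pos.2 (hX h)), sign_pos (sub_pos.2 (hX' h))]

theorem unique {X Y X' Y' : Fin n → ℝ} {c : Code k n} (h : Real' X Y c) (h' : Real' X' Y' c) :
    ∀ i j l, o3 X Y i j l = o3 X' Y' i j l := by
  obtain ⟨hX, h1, h2, h3⟩ := h
  obtain ⟨hX', h1', h2', h3'⟩ := h'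
  -- first entry special
  have first : ∀ t i j, o3 X Y (c.2.1 t) i j = o3 X' Y' (c.2.1 t) i j := by
    intro t i j
    by_cases hi : ∃ t', c.2.1 t' = i
    · obtain ⟨t', rfl⟩ := hi
      rw [h3, h3']
    · by_cases hj : ∃ t', c.2.1 t' = j
      · obtain ⟨t', rfl⟩ := hj
        rw [o3_swap23 X Y, o3_swap23 X' Y', h3, h3']
      · push Not at hi hj
        rw [o3, o3, D_from hX (hi t).symm (hj t).symm, D_from hX' (hi t).symm (hj t).symm]
        rw [sign_mul, sign_mul, sign_mul, sign_mul]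
        rw [sign_sub_eq hX hX' i, sign_sub_eq hX hX' j]
        congr 1
        have a1 := (h2 t i j hi hj).symm.trans (h2' t i j hi hj)
        have a2 := (h2 t j i hj hi).symm.trans (h2' t j i hj hi)
        rcases lt_trichotomy (slo X Y (c.2.1 t) i) (slo X Y (c.2.1 t) j) with h0 | h0 | h0
        · rw [sign_pos (sub_pos.2 h0), sign_pos (sub_pos.2 (a1.1 h0))]
        · have b1 : ¬ slo X' Y' (c.2.1 t) i < slo X' Y' (c.2.1 t) j :=
            fun hh => (lt_irrefl _ (h0 ▸ a1.2 hh))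
          have b2 : ¬ slo X' Y' (c.2.1 t) j < slo X' Y' (c.2.1 t) i :=
            fun hh => (lt_irrefl _ (h0 ▸ a2.2 hh))
          have b3 := le_antisymm (not_lt.1 b2) (not_lt.1 b1)
          rw [h0, b3, sub_self, sub_self]
        · rw [sign_neg (sub_neg.2 h0), sign_neg (sub_neg.2 (a2.1 h0))]
  intro i j l
  by_cases hi : ∃ t, c.2.1 t = i
  · obtain ⟨t, rfl⟩ := hi; exact first t j l
  · by_cases hj : ∃ t, c.2.1 t = j
    · obtain ⟨t, rfl⟩ := hj
      rw [← o3_rot X Y, ← o3_rot X' Y']; exact first t l i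
    · by_cases hl : ∃ t, c.2.1 t = l
      · obtain ⟨t, rfl⟩ := hl
        rw [← o3_rot X Y, ← o3_rot X Y, ← o3_rot X' Y', ← o3_rot X' Y']; exact first t i j
      · push Not at hi hj hl
        exact agree (P := fun i => ∀ t, c.2.1 t ≠ i) (o3_swap12 X Y) (o3_swap23 X Y)
          (o3_swap12 X' Y') (o3_swap23 X' Y')
          (fun i j l hi hj hl hij hjl => by rw [h1 i j l hi hj hl hij hjl, h1' i j l hi hj hl hij hjl])
          i j l hi hj hl

theorem exists_code {X Y : Fin n → ℝ} (hX : StrictMono X) (q : Fin k → Fin n)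
    (hs : ∃ s, Chains X Y {i | ∀ t, q t ≠ i} s) : ∃ c : Code k n, Real' X Y c := by
  obtain ⟨s, hs⟩ := hs
  refine ⟨(s, q, fun t => ⟨rk X Y {i | ∀ t, q t ≠ i} (q t), rk_mem_PM hX hs
    (fun h => h t rfl)⟩, fun t t' i => o3 X Y (q t) (q t') i), hX, ?_, ?_, ?_⟩
  · intro i j l hi hj hl hij hjl
    exact hs.1 i hi j hj l hl hij hjl
  · intro t i j hi hj
    exact rk_lt_iff (P := {i | ∀ t, q t ≠ i}) hi hj
  · intro t t' i
    rfl

theorem card_Code (k : ℕ) (hn : 1 ≤ n) :
    Fintype.card (Code k n) ≤ 2 ^ (n * (2 + 102 * k + 2 * k ^ 2)) := by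
  have c3 : Fintype.card (Fin n → SignType) ≤ 2 ^ (2 * n) := by
    rw [Fintype.card_fun, Fintype.card_fin]
    calc Fintype.card SignType ^ n = 3 ^ n := by rfl
      _ ≤ 4 ^ n := Nat.pow_le_pow_left (by norm_num) n
      _ = 2 ^ (2 * n) := by rw [pow_mul]; norm_num
  have c1 : Fintype.card (Fin k → Fin n) ≤ 2 ^ (n * k) := by
    rw [Fintype.card_fun, Fintype.card_fin, Fintype.card_fin, pow_mul]
    exact Nat.pow_le_pow_left (Nat.lt_two_pow_self).le k
  have c2 : Fintype.card (Fin k → PM n) ≤ 2 ^ (n * (101 * k)) := by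
    rw [Fintype.card_fun, Fintype.card_fin]
    have h1 : Fintype.card (PM n) ≤ 2 ^ (n * 101) := by
      refine (card_PM n).trans ?_
      calc 24 ^ n * (2 ^ (2 * n + 2)) ^ 24 ≤ 32 ^ n * (2 ^ (2 * n + 2)) ^ 24 :=
            Nat.mul_le_mul_right _ (Nat.pow_le_pow_left (by norm_num) n)
        _ = 2 ^ (5 * n + (2 * n + 2) * 24) := by
            rw [show (32 : ℕ) = 2 ^ 5 by norm_num, ← pow_mul, ← pow_mul, ← pow_add]
        _ ≤ 2 ^ (n * 101) := Nat.pow_le_pow_right (by norm_num) (by omega)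
    calc Fintype.card (PM n) ^ k ≤ (2 ^ (n * 101)) ^ k := Nat.pow_le_pow_left h1 k
      _ = 2 ^ (n * (101 * k)) := by rw [← pow_mul]; congr 1; ring
  have c4 : Fintype.card (Fin k → Fin k → Fin n → SignType) ≤ 2 ^ (2 * n * (k * k)) := by
    rw [Fintype.card_fun, Fintype.card_fun, Fintype.card_fin, ← pow_mul]
    calc Fintype.card (Fin n → SignType) ^ (k * k) ≤ (2 ^ (2 * n)) ^ (k * k) :=
          Nat.pow_le_pow_left c3 _
      _ = 2 ^ (2 * n * (k * k)) := by rw [← pow_mul]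
  calc Fintype.card (Code k n) = Fintype.card (Fin n → SignType) *
        (Fintype.card (Fin k → Fin n) * (Fintype.card (Fin k → PM n) *
          Fintype.card (Fin k → Fin k → Fin n → SignType))) := by
        rw [Fintype.card_prod, Fintype.card_prod, Fintype.card_prod]
    _ ≤ 2 ^ (2 * n) * (2 ^ (n * k) * (2 ^ (n * (101 * k)) * 2 ^ (2 * n * (k * k)))) :=
        Nat.mul_le_mul c3 (Nat.mul_le_mul c1 (Nat.mul_le_mul c2 c4))
    _ = 2 ^ (n * (2 + 102 * k + 2 * k ^ 2)) := by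
        rw [← pow_add, ← pow_add, ← pow_add]; congr 1; ring

/-- a generic direction -/
theorem exists_generic (S : Finset (ℝ × ℝ)) :
    ∃ t : ℝ, Set.InjOn (fun p : ℝ × ℝ => p.1 + t * p.2) (S : Set (ℝ × ℝ)) := by
  obtain ⟨t, ht⟩ := Infinite.exists_notMem_finset
    ((S ×ˢ S).image (fun x : (ℝ × ℝ) × (ℝ × ℝ) => -(x.1.1 - x.2.1) / (x.1.2 - x.2.2)))
  refine ⟨t, ?_⟩
  intro p hp q hq h
  simp only at h
  by_contra hne
  by_cases h2 : p.2 = q.2
  · apply hne
    rw [h2] at h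
    ext
    · linarith
    · exact h2
  · apply ht
    rw [Finset.mem_image]
    refine ⟨(p, q), Finset.mem_product.2 ⟨hp, hq⟩, ?_⟩
    have h3 : p.2 - q.2 ≠ 0 := sub_ne_zero.2 h2
    simp only
    rw [div_eq_iff h3]
    linarith

/-- labelling in increasing order of an injective real function -/
theorem exists_lab (S : Finset (ℝ × ℝ)) (f : ℝ × ℝ → ℝ) (hf : Set.InjOn f S) (hS : S.card = n) :
    ∃ lab : Fin n ≃ S, StrictMono (fun i => f (lab i)) := by
  have hc : (S.image f).card = n := by rw [Finset.card_image_of_injOn hf, hS]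
  let e : Fin n ≃o S.image f := (S.image f).orderIsoOfFin hc
  have hbij : Function.Bijective (fun p : S => (⟨f p, Finset.mem_image_of_mem f p.2⟩ : S.image f)) := by
    constructor
    · intro p q h
      exact Subtype.ext (hf p.2 q.2 (Subtype.ext_iff.1 h))
    · rintro ⟨y, hy⟩
      obtain ⟨p, hp, rfl⟩ := Finset.mem_image.1 hy
      exact ⟨⟨p, hp⟩, rfl⟩
  let g := Equiv.ofBijective _ hbij
  refine ⟨e.toEquiv.trans g.symm, ?_⟩
  intro i j hij
  have h : ∀ i, f ((e.toEquiv.trans g.symm) i) = (e i : ℝ) := by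
    intro i
    have := g.apply_symm_apply (e i)
    exact congrArg Subtype.val this
  simp only
  rw [h, h]
  exact_mod_cast e.strictMono hij

end Pool.Agent.V11161.OTCode
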