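import Mathlib

/-! Sum estimates over pairs with bounded product. -/

open Finset

namespace Pool.Agent.V11161.QuadSum

/-- pairs with product at most `n` -/
def A (n : ℕ) : Finset (ℕ × ℕ) :=
  (Icc 1 n ×ˢ Icc 1 n).filter (fun p => p.1 * p.2 ≤ n)

theorem mem_A {n : ℕ} {p : ℕ × ℕ} : p ∈ A n ↔ 1 ≤ p.1 ∧ 1 ≤ p.2 ∧ p.1 * p.2 ≤ n := by
  simp only [A, mem_filter, mem_product, mem_Icc]
  constructor
  · rintro ⟨⟨⟨h1, _⟩, h2, _⟩, h3⟩
    exact ⟨h1, h2, h3⟩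
  · rintro ⟨h1, h2, h3⟩
    have a1 : p.1 ≤ p.1 * p.2 := Nat.le_mul_of_pos_right _ h2
    have a2 : p.2 ≤ p.1 * p.2 := Nat.le_mul_of_pos_left _ h1
    exact ⟨⟨⟨h1, a1.trans h3⟩, h2, a2.trans h3⟩, h3⟩

theorem sum_inv_le {n : ℕ} (hn : 1 ≤ n) : ∑ k ∈ Icc 1 n, (1 : ℝ) / k ≤ 1 + Real.log n := by
  have h := harmonic_le_one_add_log n
  rw [harmonic_eq_sum_Icc] at h
  push_cast at h
  simpa [one_div] using h

theorem sum_inv_sqrt_le (M : ℕ) : ∑ m ∈ Icc 1 M, (1 : ℝ) / Real.sqrt m ≤ 2 * Real.sqrt M := by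
  induction M with
  | zero => simp
  | succ M ih =>
    rw [Finset.sum_Icc_succ_top (by omega)]
    have h1 : 0 < Real.sqrt ((M + 1 : ℕ) : ℝ) := Real.sqrt_pos.2 (by positivity)
    have h2 : 0 ≤ Real.sqrt (M : ℝ) := Real.sqrt_nonneg _
    have h3 : Real.sqrt ((M + 1 : ℕ) : ℝ) * Real.sqrt ((M + 1 : ℕ) : ℝ) = (M : ℝ) + 1 := by
      rw [Real.mul_self_sqrt (by positivity)]; push_cast; ring
    have h4 : Real.sqrt (M : ℝ) * Real.sqrt (M : ℝ) = M := Real.mul_self_sqrt (by positivity)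
    have h5 : (1 : ℝ) / Real.sqrt ((M + 1 : ℕ) : ℝ) ≤
        2 * (Real.sqrt ((M + 1 : ℕ) : ℝ) - Real.sqrt M) := by
      rw [div_le_iff₀ h1]
      nlinarith [sq_nonneg (Real.sqrt ((M + 1 : ℕ) : ℝ) - Real.sqrt M)]
    linarith

/-- reals version with a cutoff -/
theorem sum_cut {n : ℕ} {Z : ℝ} (hZ : 0 ≤ Z) :
    ∑ m ∈ (Icc 1 n).filter (fun m : ℕ => (m : ℝ) ≤ Z), (1 : ℝ) / Real.sqrt m ≤
      2 * Real.sqrt Z := by
  have hsub : (Icc 1 n).filter (fun m : ℕ => (m : ℝ) ≤ Z) ⊆ Icc 1 ⌊Z⌋₊ := by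
    intro m hm
    rw [mem_filter, mem_Icc] at hm
    rw [mem_Icc]
    exact ⟨hm.1.1, Nat.le_floor hm.2⟩
  calc ∑ m ∈ (Icc 1 n).filter (fun m : ℕ => (m : ℝ) ≤ Z), (1 : ℝ) / Real.sqrt m
      ≤ ∑ m ∈ Icc 1 ⌊Z⌋₊, (1 : ℝ) / Real.sqrt m :=
        Finset.sum_le_sum_of_subset_of_nonneg hsub (fun _ _ _ => by positivity)
    _ ≤ 2 * Real.sqrt (⌊Z⌋₊ : ℝ) := sum_inv_sqrt_le _
    _ ≤ 2 * Real.sqrt Z := by
        have := Real.sqrt_le_sqrt (Nat.floor_le hZ)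
        linarith

theorem card_A {n : ℕ} (hn : 1 ≤ n) : ((A n).card : ℝ) ≤ n * (1 + Real.log n) := by
  have h1 : (A n).card = ∑ a ∈ Icc 1 n, ((Icc 1 n).filter (fun b => a * b ≤ n)).card := by
    rw [A, Finset.card_filter, Finset.sum_product]
    apply Finset.sum_congr rfl
    intro a _
    rw [Finset.card_filter]
  have h2 : ∀ a ∈ Icc 1 n, (((Icc 1 n).filter (fun b => a * b ≤ n)).card : ℝ) ≤
      n * ((1 : ℝ) / a) := by
    intro a ha
    have ha1 : 1 ≤ a := (mem_Icc.1 ha).1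
    have hsub : (Icc 1 n).filter (fun b => a * b ≤ n) ⊆ Icc 1 (n / a) := by
      intro b hb
      rw [mem_filter, mem_Icc] at hb
      rw [mem_Icc]
      exact ⟨hb.1.1, (Nat.le_div_iff_mul_le (by omega)).2 (by rw [mul_comm]; exact hb.2)⟩
    have h3 := Finset.card_le_card hsub
    rw [Nat.card_Icc, Nat.add_sub_cancel] at h3
    have h4 : (((Icc 1 n).filter (fun b => a * b ≤ n)).card : ℝ) ≤ ((n / a : ℕ) : ℝ) :=
      Nat.cast_le.2 h3
    have h5 : ((n / a : ℕ) : ℝ) ≤ (n : ℝ) / a := Nat.cast_div_le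
    rw [mul_one_div]
    exact h4.trans h5
  rw [h1]
  push_cast
  calc ∑ a ∈ Icc 1 n, (((Icc 1 n).filter (fun b => a * b ≤ n)).card : ℝ)
      ≤ ∑ a ∈ Icc 1 n, n * ((1 : ℝ) / a) := Finset.sum_le_sum h2
    _ = n * ∑ a ∈ Icc 1 n, (1 : ℝ) / a := by rw [Finset.mul_sum]
    _ ≤ n * (1 + Real.log n) :=
        mul_le_mul_of_nonneg_left (sum_inv_le hn) (Nat.cast_nonneg n)

/-- triples `(g,k,m)` with `g² k m ≤ n` -/
def B (n : ℕ) : Finset (ℕ × ℕ × ℕ) :=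
  (Icc 1 n ×ˢ Icc 1 n ×ˢ Icc 1 n).filter (fun t => t.1 ^ 2 * t.2.1 * t.2.2 ≤ n)

theorem sum_B {n : ℕ} (hn : 1 ≤ n) :
    ∑ t ∈ B n, (1 : ℝ) / (t.2.1 + t.2.2) ≤ Real.sqrt n * (1 + Real.log n) ^ 2 := by
  have hlog : 0 ≤ 1 + Real.log n := by
    have := Real.log_nonneg (show (1 : ℝ) ≤ n by exact_mod_cast hn)
    linarith
  rw [B, Finset.sum_filter, Finset.sum_product]
  have hinner : ∀ g ∈ Icc 1 n, ∀ k ∈ Icc 1 n,
      ∑ m ∈ Icc 1 n, (if g ^ 2 * k * m ≤ n then (1 : ℝ) / ((k : ℝ) + m) else 0) ≤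
        Real.sqrt n * ((1 : ℝ) / g) * ((1 : ℝ) / k) := by
    intro g hg k hk
    have hg1 : (1 : ℝ) ≤ g := by exact_mod_cast (mem_Icc.1 hg).1
    have hk1 : (1 : ℝ) ≤ k := by exact_mod_cast (mem_Icc.1 hk).1
    have hg0 : (0 : ℝ) < g := by linarith
    have hk0 : (0 : ℝ) < k := by linarith
    have hsk : 0 < Real.sqrt k := Real.sqrt_pos.2 hk0
    rw [← Finset.sum_filter]
    set Z : ℝ := (n : ℝ) / ((g : ℝ) ^ 2 * k) with hZ
    have hZ0 : 0 ≤ Z := by positivity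
    have hsub : (Icc 1 n).filter (fun m => g ^ 2 * k * m ≤ n) ⊆
        (Icc 1 n).filter (fun m : ℕ => (m : ℝ) ≤ Z) := by
      intro m hm
      rw [mem_filter] at hm ⊢
      refine ⟨hm.1, ?_⟩
      rw [hZ, le_div_iff₀ (by positivity)]
      have : ((g ^ 2 * k * m : ℕ) : ℝ) ≤ n := by exact_mod_cast hm.2
      push_cast at this
      linarith
    calc ∑ m ∈ (Icc 1 n).filter (fun m => g ^ 2 * k * m ≤ n), (1 : ℝ) / ((k : ℝ) + m)
        ≤ ∑ m ∈ (Icc 1 n).filter (fun m : ℕ => (m : ℝ) ≤ Z), (1 : ℝ) / ((k : ℝ) + m) :=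
          Finset.sum_le_sum_of_subset_of_nonneg hsub (fun _ _ _ => by positivity)
      _ ≤ ∑ m ∈ (Icc 1 n).filter (fun m : ℕ => (m : ℝ) ≤ Z),
            (1 / (2 * Real.sqrt k)) * (1 / Real.sqrt m) := by
          apply Finset.sum_le_sum
          intro m hm
          rw [mem_filter, mem_Icc] at hm
          have hm0 : (0 : ℝ) < m := by exact_mod_cast (by omega : 0 < m)
          have hsm : 0 < Real.sqrt m := Real.sqrt_pos.2 hm0
          have e1 : Real.sqrt k * Real.sqrt k = k := Real.mul_self_sqrt hk0.le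
          have e2 : Real.sqrt m * Real.sqrt m = m := Real.mul_self_sqrt hm0.le
          rw [one_div_mul_one_div]
          apply one_div_le_one_div_of_le (by positivity)
          nlinarith [sq_nonneg (Real.sqrt k - Real.sqrt m)]
      _ = (1 / (2 * Real.sqrt k)) * ∑ m ∈ (Icc 1 n).filter (fun m : ℕ => (m : ℝ) ≤ Z),
            (1 / Real.sqrt m) := by rw [Finset.mul_sum]
      _ ≤ (1 / (2 * Real.sqrt k)) * (2 * Real.sqrt Z) :=
          mul_le_mul_of_nonneg_left (sum_cut hZ0) (by positivity)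
      _ = Real.sqrt n * ((1 : ℝ) / g) * ((1 : ℝ) / k) := by
          have e1 : Real.sqrt k * Real.sqrt k = k := Real.mul_self_sqrt hk0.le
          rw [hZ, Real.sqrt_div (Nat.cast_nonneg n), Real.sqrt_mul (by positivity),
            Real.sqrt_sq hg0.le]
          field_simp
          rw [pow_two, e1]
  calc ∑ g ∈ Icc 1 n, ∑ t ∈ Icc 1 n ×ˢ Icc 1 n,
        (if g ^ 2 * t.1 * t.2 ≤ n then (1 : ℝ) / ((t.1 : ℝ) + t.2) else 0)
      = ∑ g ∈ Icc 1 n, ∑ k ∈ Icc 1 n, ∑ m ∈ Icc 1 n,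
        (if g ^ 2 * k * m ≤ n then (1 : ℝ) / ((k : ℝ) + m) else 0) := by
        apply Finset.sum_congr rfl
        intro g _
        rw [Finset.sum_product]
    _ ≤ ∑ g ∈ Icc 1 n, ∑ k ∈ Icc 1 n, Real.sqrt n * ((1 : ℝ) / g) * ((1 : ℝ) / k) :=
        Finset.sum_le_sum (fun g hg => Finset.sum_le_sum (fun k hk => hinner g hg k hk))
    _ = Real.sqrt n * (∑ g ∈ Icc 1 n, (1 : ℝ) / g) * (∑ k ∈ Icc 1 n, (1 : ℝ) / k) := by
        symm
        rw [mul_assoc, Finset.sum_mul_sum, Finset.mul_sum]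
        apply Finset.sum_congr rfl
        intro g _
        rw [Finset.mul_sum]
        apply Finset.sum_congr rfl
        intro k _
        ring
    _ ≤ Real.sqrt n * (1 + Real.log n) * (1 + Real.log n) := by
        have h1 := sum_inv_le hn
        have h2 : 0 ≤ ∑ k ∈ Icc 1 n, (1 : ℝ) / k := Finset.sum_nonneg (fun _ _ => by positivity)
        have h3 : 0 ≤ Real.sqrt n := Real.sqrt_nonneg _
        gcongr
    _ = Real.sqrt n * (1 + Real.log n) ^ 2 := by ring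

theorem sum_A {n : ℕ} (hn : 1 ≤ n) :
    ∑ p ∈ A n, (Nat.gcd p.1 p.2 : ℝ) / (p.1 + p.2) ≤ Real.sqrt n * (1 + Real.log n) ^ 2 := by
  refine le_trans ?_ (sum_B hn)
  let φ : ℕ × ℕ → ℕ × ℕ × ℕ := fun p => (Nat.gcd p.1 p.2, p.1 / Nat.gcd p.1 p.2,
    p.2 / Nat.gcd p.1 p.2)
  have hdec : ∀ p ∈ A n, 1 ≤ Nat.gcd p.1 p.2 ∧ Nat.gcd p.1 p.2 * (p.1 / Nat.gcd p.1 p.2) = p.1 ∧
      Nat.gcd p.1 p.2 * (p.2 / Nat.gcd p.1 p.2) = p.2 := by
    intro p hp
    rw [mem_A] at hp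
    exact ⟨Nat.gcd_pos_of_pos_left _ hp.1, Nat.mul_div_cancel' (Nat.gcd_dvd_left _ _),
      Nat.mul_div_cancel' (Nat.gcd_dvd_right _ _)⟩
  have hinj : Set.InjOn φ (A n) := by
    intro p hp q hq h
    obtain ⟨-, h1, h2⟩ := hdec p hp
    obtain ⟨-, h1', h2'⟩ := hdec q hq
    simp only [φ, Prod.mk.injEq] at h
    obtain ⟨e1, e2, e3⟩ := h
    ext
    · calc p.1 = Nat.gcd p.1 p.2 * (p.1 / Nat.gcd p.1 p.2) := h1.symm
        _ = Nat.gcd q.1 q.2 * (q.1 / Nat.gcd q.1 q.2) := congrArg₂ (· * ·) e1 e2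
        _ = q.1 := h1'
    · calc p.2 = Nat.gcd p.1 p.2 * (p.2 / Nat.gcd p.1 p.2) := h2.symm
        _ = Nat.gcd q.1 q.2 * (q.2 / Nat.gcd q.1 q.2) := congrArg₂ (· * ·) e1 e3
        _ = q.2 := h2'
  have hval : ∀ p ∈ A n, (Nat.gcd p.1 p.2 : ℝ) / (p.1 + p.2) =
      (fun t : ℕ × ℕ × ℕ => (1 : ℝ) / (t.2.1 + t.2.2)) (φ p) := by
    intro p hp
    obtain ⟨h0, h1, h2⟩ := hdec p hp
    rw [mem_A] at hp
    simp only [φ]
    set g := Nat.gcd p.1 p.2
    set k := p.1 / g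
    set m := p.2 / g
    have hg0 : (0 : ℝ) < g := by exact_mod_cast h0
    have e1 : (p.1 : ℝ) = g * k := by exact_mod_cast h1.symm
    have e2 : (p.2 : ℝ) = g * m := by exact_mod_cast h2.symm
    have hpos : (0 : ℝ) < (k : ℝ) + m := by
      have : (0 : ℝ) < g * ((k : ℝ) + m) := by
        rw [mul_add, ← e1, ← e2]
        have a1 : (1 : ℝ) ≤ p.1 := by exact_mod_cast hp.1
        have a2 : (1 : ℝ) ≤ p.2 := by exact_mod_cast hp.2.1
        linarith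
      exact (pos_iff_pos_of_mul_pos this).1 hg0
    rw [e1, e2]
    field_simp
  rw [Finset.sum_congr rfl hval, ← Finset.sum_image (f := fun t : ℕ × ℕ × ℕ =>
    (1 : ℝ) / (t.2.1 + t.2.2)) hinj]
  apply Finset.sum_le_sum_of_subset_of_nonneg
  · intro t ht
    rw [Finset.mem_image] at ht
    obtain ⟨p, hp, rfl⟩ := ht
    obtain ⟨h0, h1, h2⟩ := hdec p hp
    rw [mem_A] at hp
    simp only [φ, B, mem_filter, mem_product, mem_Icc]
    set g := Nat.gcd p.1 p.2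
    set k := p.1 / g
    set m := p.2 / g
    have hk : 1 ≤ k := by
      rcases Nat.eq_zero_or_pos k with h | h
      · rw [h, mul_zero] at h1; omega
      · exact h
    have hm : 1 ≤ m := by
      rcases Nat.eq_zero_or_pos m with h | h
      · rw [h, mul_zero] at h2; omega
      · exact h
    have hprod : g ^ 2 * k * m ≤ n := by
      calc g ^ 2 * k * m = (g * k) * (g * m) := by ring
        _ = p.1 * p.2 := by rw [h1, h2]
        _ ≤ n := hp.2.2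
    have b1 : g ≤ g ^ 2 * k * m := by
      calc g = g * 1 * 1 := by ring
        _ ≤ (g * g * k) * m := by
          apply Nat.mul_le_mul _ hm
          calc g * 1 ≤ g * (g * k) := Nat.mul_le_mul_left _ (Nat.mul_pos h0 hk)
            _ = g * g * k := by ring
        _ = g ^ 2 * k * m := by ring
    have b2 : k ≤ g ^ 2 * k * m := by
      calc k = 1 * k * 1 := by ring
        _ ≤ g ^ 2 * k * m := Nat.mul_le_mul (Nat.mul_le_mul_right _ (Nat.one_le_pow _ _ h0)) hm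
    have b3 : m ≤ g ^ 2 * k * m := by
      calc m = 1 * 1 * m := by ring
        _ ≤ g ^ 2 * k * m := Nat.mul_le_mul_right _ (Nat.mul_le_mul (Nat.one_le_pow _ _ h0) hk)
    exact ⟨⟨⟨h0, b1.trans hprod⟩, ⟨hk, b2.trans hprod⟩, hm, b3.trans hprod⟩, hprod⟩
  · intro t _ _
    positivity

end Pool.Agent.V11161.QuadSum
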