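import Mathlib

/-! A counting argument (in the style of Rosenfeld) for avoiding bad triples. -/

open Finset

namespace Pool.Agent.V11161.Rosenfeld

variable {ι : Type*} [Fintype ι] [DecidableEq ι] {w : ℕ}

/-- validity on `S` -/
def Valid (C : ι → ι → ι → Fin w → Fin w → Fin w → Prop) (S : Finset ι) (c : ι → Fin w) : Prop :=
  ∀ x ∈ S, ∀ y ∈ S, ∀ z ∈ S, x ≠ y → y ≠ z → x ≠ z → ¬ C x y z (c x) (c y) (c z)

open Classical in
/-- number of bad value triples -/
noncomputable def T (C : ι → ι → ι → Fin w → Fin w → Fin w → Prop) (x y z : ι) : ℕ :=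
  if x ≠ y ∧ y ≠ z ∧ x ≠ z then
    (univ.filter (fun t : Fin w × Fin w × Fin w => C x y z t.1 t.2.1 t.2.2)).card else 0

open Classical in
/-- valid configurations on `S` (normalised off `S`) -/
noncomputable def V [NeZero w] (C : ι → ι → ι → Fin w → Fin w → Fin w → Prop) (S : Finset ι) :
    Finset (ι → Fin w) :=
  univ.filter (fun c => (∀ i, i ∉ S → c i = 0) ∧ Valid C S c)

variable [NeZero w] {C : ι → ι → ι → Fin w → Fin w → Fin w → Prop}

theorem mem_V {S : Finset ι} {c : ι → Fin w} :
    c ∈ V C S ↔ (∀ i, i ∉ S → c i = 0) ∧ Valid C S c := by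
  classical
  simp [V]

theorem bad_card (x : ι) (S : Finset ι) (y z : ι) (hx : x ∉ S) (hy : y ∈ S) (hz : z ∈ S)
    (hyz : y ≠ z) [DecidablePred fun p : (ι → Fin w) × Fin w => C x y z p.2 (p.1 y) (p.1 z)] :
    ((V C S ×ˢ (univ : Finset (Fin w))).filter
      (fun p => C x y z p.2 (p.1 y) (p.1 z))).card ≤ T C x y z * (V C ((S.erase z).erase y)).card := by
  classical
  have hxy : x ≠ y := fun h => hx (h ▸ hy)
  have hxz : x ≠ z := fun h => hx (h ▸ hz)
  rw [T, if_pos ⟨hxy, hyz, hxz⟩, ← Finset.card_product]
  apply Finset.card_le_card_of_injOn (fun p : (ι → Fin w) × Fin w =>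
    ((p.2, p.1 y, p.1 z), Function.update (Function.update p.1 z 0) y 0))
  · rintro ⟨c, v⟩ hp
    simp only [Finset.coe_filter, Finset.mem_product, Finset.mem_univ, and_true,
      Set.mem_ofPred_eq] at hp
    obtain ⟨hc, hC⟩ := hp
    rw [mem_V] at hc
    simp only [Finset.coe_product, Set.mem_prod, Finset.mem_coe, Finset.mem_filter,
      Finset.mem_univ, true_and]
    refine ⟨hC, ?_⟩
    rw [mem_V]
    constructor
    · intro i hi
      simp only [Function.update_apply]
      split_ifs with h1 h2
      · rfl
      · rfl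
      · apply hc.1
        intro hiS
        apply hi
        simp [h1, h2, hiS]
    · intro a ha b hb d hd hab hbd had
      simp only [Finset.mem_erase] at ha hb hd
      simp only [Function.update_apply, ha.1, ha.2.1, hb.1, hb.2.1, hd.1, hd.2.1, if_false]
      exact hc.2 a ha.2.2 b hb.2.2 d hd.2.2 hab hbd had
  · rintro ⟨c, v⟩ hp ⟨c', v'⟩ hp' h
    simp only [Prod.mk.injEq] at h
    obtain ⟨⟨h1, h2, h3⟩, h4⟩ := h
    refine Prod.ext ?_ h1
    funext i
    by_cases hiy : i = y
    · subst hiy; exact h2
    · by_cases hiz : i = z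
      · subst hiz; exact h3
      · have := congrFun h4 i
        simpa [Function.update_apply, hiy, hiz] using this

theorem step (hs1 : ∀ x y z a b c, C x y z a b c → C y x z b a c)
    (hs2 : ∀ x y z a b c, C x y z a b c → C x z y a c b) (x : ι) (S : Finset ι) (hx : x ∉ S) :
    w * (V C S).card ≤ (V C (insert x S)).card +
      ∑ p ∈ S.offDiag, T C x p.1 p.2 * (V C ((S.erase p.2).erase p.1)).card := by
  classical
  have h0 : w * (V C S).card = (V C S ×ˢ (univ : Finset (Fin w))).card := by
    rw [Finset.card_product, Finset.card_univ, Fintype.card_fin, mul_comm]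
  set A := V C S ×ˢ (univ : Finset (Fin w)) with hA
  have hsplit := Finset.card_filter_add_card_filter_not (s := A)
    (fun p => Valid C (insert x S) (Function.update p.1 x p.2))
  rw [h0, ← hsplit]
  apply Nat.add_le_add
  · apply Finset.card_le_card_of_injOn (fun p => Function.update p.1 x p.2)
    · rintro ⟨c, v⟩ hp
      simp only [hA, Finset.coe_filter, Finset.mem_product, Finset.mem_univ, and_true,
        Set.mem_ofPred_eq] at hp
      rw [Finset.mem_coe, mem_V]
      refine ⟨?_, hp.2⟩
      intro i hi
      rw [Finset.mem_insert, not_or] at hi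
      simp only [Function.update_apply, hi.1, if_false]
      exact (mem_V.1 hp.1).1 i hi.2
    · rintro ⟨c, v⟩ hp ⟨c', v'⟩ hp' h
      simp only [hA, Finset.coe_filter, Finset.mem_product, Finset.mem_univ, and_true,
        Set.mem_ofPred_eq] at hp hp'
      simp only at h
      have hv : v = v' := by
        have := congrFun h x
        simpa using this
      refine Prod.ext ?_ hv
      funext i
      by_cases hi : i = x
      · rw [hi]
        simp only
        rw [(mem_V.1 hp.1).1 x hx, (mem_V.1 hp'.1).1 x hx]
      · have := congrFun h i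
        simpa [Function.update_apply, hi] using this
  · have hsub : A.filter (fun p => ¬ Valid C (insert x S) (Function.update p.1 x p.2)) ⊆
        S.offDiag.biUnion (fun q => A.filter (fun p => C x q.1 q.2 p.2 (p.1 q.1) (p.1 q.2))) := by
      rintro ⟨c, v⟩ hp
      rw [Finset.mem_filter] at hp
      obtain ⟨hpA, hnv⟩ := hp
      have hcV : c ∈ V C S := (Finset.mem_product.1 hpA).1
      have hval := (mem_V.1 hcV).2
      rw [Finset.mem_biUnion]
      unfold Valid at hnv
      push Not at hnv
      obtain ⟨a, ha, b, hb, d, hd, hab, hbd, had, hC⟩ := hnv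
      have hup : ∀ i, i ∈ S → Function.update c x v i = c i := by
        intro i hi
        have hne : i ≠ x := fun h => hx (h ▸ hi)
        rw [Function.update_apply, if_neg hne]
      have hupx : Function.update c x v x = v := by simp
      have hmem : ∀ i, i ∈ insert x S → i ≠ x → i ∈ S := by
        intro i hi hix
        exact (Finset.mem_insert.1 hi).resolve_left hix
      by_cases hax : a = x
      · subst hax
        have hbS := hmem b hb (Ne.symm hab)
        have hdS := hmem d hd (Ne.symm had)
        refine ⟨(b, d), Finset.mem_offDiag.2 ⟨hbS, hdS, hbd⟩, ?_⟩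
        rw [Finset.mem_filter]
        refine ⟨hpA, ?_⟩
        rwa [hupx, hup b hbS, hup d hdS] at hC
      · by_cases hbx : b = x
        · subst hbx
          have haS := hmem a ha hab
          have hdS := hmem d hd (Ne.symm hbd)
          refine ⟨(a, d), Finset.mem_offDiag.2 ⟨haS, hdS, had⟩, ?_⟩
          rw [Finset.mem_filter]
          refine ⟨hpA, ?_⟩
          rw [hupx, hup a haS, hup d hdS] at hC
          exact hs1 _ _ _ _ _ _ hC
        · by_cases hdx : d = x
          · subst hdx
            have haS := hmem a ha had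
            have hbS := hmem b hb hbd
            refine ⟨(a, b), Finset.mem_offDiag.2 ⟨haS, hbS, hab⟩, ?_⟩
            rw [Finset.mem_filter]
            refine ⟨hpA, ?_⟩
            rw [hupx, hup a haS, hup b hbS] at hC
            exact hs1 _ _ _ _ _ _ (hs2 _ _ _ _ _ _ hC)
          · exfalso
            have haS := hmem a ha hax
            have hbS := hmem b hb hbx
            have hdS := hmem d hd hdx
            rw [hup a haS, hup b hbS, hup d hdS] at hC
            exact hval a haS b hbS d hdS hab hbd had hC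
    refine (Finset.card_le_card hsub).trans (Finset.card_biUnion_le.trans ?_)
    apply Finset.sum_le_sum
    rintro ⟨y, z⟩ hyz
    rw [Finset.mem_offDiag] at hyz
    exact bad_card x S y z hx hyz.1 hyz.2.1 hyz.2.2

theorem growth (hs1 : ∀ x y z a b c, C x y z a b c → C y x z b a c)
    (hs2 : ∀ x y z a b c, C x y z a b c → C x z y a c b)
    (hT : ∀ x, 8 * ∑ p : ι × ι, T C x p.1 p.2 ≤ w ^ 3) :
    ∀ (m : ℕ) (S : Finset ι), S.card = m → ∀ x, x ∉ S →
      w * (V C S).card ≤ 2 * (V C (insert x S)).card := by
  classical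
  have hw : 0 < w := Nat.pos_of_ne_zero (NeZero.ne w)
  intro m
  induction m using Nat.strong_induction_on with
  | _ m ih =>
    intro S hS x hx
    have hstep := step hs1 hs2 x S hx
    have hrem : ∀ p ∈ S.offDiag, w ^ 2 * (V C ((S.erase p.2).erase p.1)).card ≤
        4 * (V C S).card := by
      rintro ⟨y, z⟩ hyz
      rw [Finset.mem_offDiag] at hyz
      obtain ⟨hy, hz, hne⟩ := hyz
      simp only at hy hz hne ⊢
      have hyz' : y ∈ S.erase z := Finset.mem_erase.2 ⟨hne, hy⟩
      have hpos : 0 < S.card := Finset.card_pos.2 ⟨y, hy⟩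
      have c1 : (S.erase z).card < m := by rw [Finset.card_erase_of_mem hz]; omega
      have c2 : ((S.erase z).erase y).card < m :=
        lt_of_le_of_lt (Finset.card_le_card (Finset.erase_subset _ _)) c1
      have h1 := ih _ c2 ((S.erase z).erase y) rfl y (Finset.notMem_erase _ _)
      have h2 := ih _ c1 (S.erase z) rfl z (Finset.notMem_erase _ _)
      rw [Finset.insert_erase hyz'] at h1
      rw [Finset.insert_erase hz] at h2
      calc w ^ 2 * (V C ((S.erase z).erase y)).card
          = w * (w * (V C ((S.erase z).erase y)).card) := by ring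
        _ ≤ w * (2 * (V C (S.erase z)).card) := Nat.mul_le_mul_left _ h1
        _ = 2 * (w * (V C (S.erase z)).card) := by ring
        _ ≤ 2 * (2 * (V C S).card) := Nat.mul_le_mul_left _ h2
        _ = 4 * (V C S).card := by ring
    have hsum : w ^ 2 * ∑ p ∈ S.offDiag, T C x p.1 p.2 * (V C ((S.erase p.2).erase p.1)).card ≤
        4 * (V C S).card * ∑ p : ι × ι, T C x p.1 p.2 := by
      rw [Finset.mul_sum]
      calc ∑ p ∈ S.offDiag, w ^ 2 * (T C x p.1 p.2 * (V C ((S.erase p.2).erase p.1)).card)
          ≤ ∑ p ∈ S.offDiag, 4 * (V C S).card * T C x p.1 p.2 := by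
            apply Finset.sum_le_sum
            intro p hp
            have := Nat.mul_le_mul_left (T C x p.1 p.2) (hrem p hp)
            calc w ^ 2 * (T C x p.1 p.2 * (V C ((S.erase p.2).erase p.1)).card)
                = T C x p.1 p.2 * (w ^ 2 * (V C ((S.erase p.2).erase p.1)).card) := by ring
              _ ≤ T C x p.1 p.2 * (4 * (V C S).card) := this
              _ = 4 * (V C S).card * T C x p.1 p.2 := by ring
        _ ≤ ∑ p : ι × ι, 4 * (V C S).card * T C x p.1 p.2 :=
            Finset.sum_le_sum_of_subset (Finset.subset_univ _)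
        _ = 4 * (V C S).card * ∑ p : ι × ι, T C x p.1 p.2 := by rw [Finset.mul_sum]
    have hT' := hT x
    -- w^3 |V S| ≤ w^2 |V ins| + 4 |V S| ΣT
    have e1 : w ^ 3 * (V C S).card ≤ w ^ 2 * (V C (insert x S)).card +
        4 * (V C S).card * ∑ p : ι × ι, T C x p.1 p.2 := by
      calc w ^ 3 * (V C S).card = w ^ 2 * (w * (V C S).card) := by ring
        _ ≤ w ^ 2 * ((V C (insert x S)).card +
            ∑ p ∈ S.offDiag, T C x p.1 p.2 * (V C ((S.erase p.2).erase p.1)).card) :=
            Nat.mul_le_mul_left _ hstep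
        _ = w ^ 2 * (V C (insert x S)).card + w ^ 2 *
            ∑ p ∈ S.offDiag, T C x p.1 p.2 * (V C ((S.erase p.2).erase p.1)).card := by ring
        _ ≤ _ := Nat.add_le_add_left hsum _
    have e2 : 2 * (4 * (V C S).card * ∑ p : ι × ι, T C x p.1 p.2) ≤ w ^ 3 * (V C S).card := by
      calc 2 * (4 * (V C S).card * ∑ p : ι × ι, T C x p.1 p.2)
          = (8 * ∑ p : ι × ι, T C x p.1 p.2) * (V C S).card := by ring
        _ ≤ w ^ 3 * (V C S).card := Nat.mul_le_mul_right _ hT'
    have e3 : w ^ 3 * (V C S).card ≤ 2 * (w ^ 2 * (V C (insert x S)).card) := by omega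
    have e4 : w ^ 2 * (w * (V C S).card) ≤ w ^ 2 * (2 * (V C (insert x S)).card) := by
      calc w ^ 2 * (w * (V C S).card) = w ^ 3 * (V C S).card := by ring
        _ ≤ 2 * (w ^ 2 * (V C (insert x S)).card) := e3
        _ = w ^ 2 * (2 * (V C (insert x S)).card) := by ring
    exact Nat.le_of_mul_le_mul_left e4 (by positivity)

/-- The counting lemma: if for every `x` the number of bad value triples involving `x` is at most
`w^3 / 8` then some choice of values avoids all bad triples. -/
theorem exists_good (hs1 : ∀ x y z a b c, C x y z a b c → C y x z b a c)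
    (hs2 : ∀ x y z a b c, C x y z a b c → C x z y a c b)
    (hT : ∀ x, 8 * ∑ p : ι × ι, T C x p.1 p.2 ≤ w ^ 3) :
    ∃ c : ι → Fin w, ∀ x y z, x ≠ y → y ≠ z → x ≠ z → ¬ C x y z (c x) (c y) (c z) := by
  classical
  have hw : 0 < w := Nat.pos_of_ne_zero (NeZero.ne w)
  have hpos : ∀ S : Finset ι, 0 < (V C S).card := by
    intro S
    induction S using Finset.induction_on with
    | empty =>
      apply Finset.card_pos.2
      exact ⟨fun _ => 0, mem_V.2 ⟨fun _ _ => rfl, fun x hx => by simp at hx⟩⟩
    | insert x S hx ih =>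
      have h := growth hs1 hs2 hT S.card S rfl x hx
      have : 0 < w * (V C S).card := Nat.mul_pos hw ih
      omega
  obtain ⟨c, hc⟩ := Finset.card_pos.1 (hpos univ)
  refine ⟨c, fun x y z hxy hyz hxz => ?_⟩
  exact (mem_V.1 hc).2 x (Finset.mem_univ _) y (Finset.mem_univ _) z (Finset.mem_univ _) hxy hyz hxz

end Pool.Agent.V11161.Rosenfeld
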