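import Mathlib
import Pool.Agent.V11161.Rosenfeld
import Pool.Agent.V11161.QuadSum

/-! Long increasing integer sequences with no three collinear points on the graph. -/

open Finset

namespace Pool.Agent.V11161.SeqBuild

open Pool.Agent.V11161.Rosenfeld Pool.Agent.V11161.QuadSum

/-- base function -/
def F (n w j : ℕ) : ℕ := w * j + w * j * j / n

/-- value at `j` with offset `c` -/
def Y (n w j : ℕ) (c : ℕ) : ℤ := (F n w j : ℤ) + c

/-- the collinearity relation (vanishing determinant) -/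
def C (n w : ℕ) (x y z : Fin n) (a b c : Fin w) : Prop :=
  ((y : ℕ) - (x : ℕ) : ℤ) * (Y n w z c - Y n w x a) =
    ((z : ℕ) - (x : ℕ) : ℤ) * (Y n w y b - Y n w x a)

theorem C_s1 {n w : ℕ} (x y z : Fin n) (a b c : Fin w) (h : C n w x y z a b c) :
    C n w y x z b a c := by
  unfold C at *
  linear_combination -h

theorem C_s2 {n w : ℕ} (x y z : Fin n) (a b c : Fin w) (h : C n w x y z a b c) :
    C n w x z y a c b := by
  unfold C at *
  linear_combination -h

theorem T_swap12 {n w : ℕ} (x y z : Fin n) : T (C n w) x y z ≤ T (C n w) y x z := by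
  classical
  unfold T
  by_cases h : x ≠ y ∧ y ≠ z ∧ x ≠ z
  · rw [if_pos h, if_pos ⟨h.1.symm, h.2.2, h.2.1⟩]
    apply Finset.card_le_card_of_injOn (fun t => (t.2.1, t.1, t.2.2))
    · rintro ⟨a, b, c⟩ ht
      simp only [Finset.coe_filter, Finset.mem_univ, true_and, Set.mem_ofPred_eq] at ht ⊢
      exact C_s1 _ _ _ _ _ _ ht
    · rintro ⟨a, b, c⟩ _ ⟨a', b', c'⟩ _ h
      simp only [Prod.mk.injEq] at h ⊢
      tauto
  · rw [if_neg h]; exact Nat.zero_le _

theorem T_swap23 {n w : ℕ} (x y z : Fin n) : T (C n w) x y z ≤ T (C n w) x z y := by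
  classical
  unfold T
  by_cases h : x ≠ y ∧ y ≠ z ∧ x ≠ z
  · rw [if_pos h, if_pos ⟨h.2.2, h.2.1.symm, h.1⟩]
    apply Finset.card_le_card_of_injOn (fun t => (t.1, t.2.2, t.2.1))
    · rintro ⟨a, b, c⟩ ht
      simp only [Finset.coe_filter, Finset.mem_univ, true_and, Set.mem_ofPred_eq] at ht ⊢
      exact C_s2 _ _ _ _ _ _ ht
    · rintro ⟨a, b, c⟩ _ ⟨a', b', c'⟩ _ h
      simp only [Prod.mk.injEq] at h ⊢
      tauto
  · rw [if_neg h]; exact Nat.zero_le _

/-- the bound for ordered triples -/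
theorem T_zero {n w : ℕ} (i j l : Fin n) (hij : (i : ℕ) < j) (hjl : (j : ℕ) < l)
    (hK : n < ((j : ℕ) - i) * ((l : ℕ) - j)) : T (C n w) i j l = 0 := by
  classical
  have hn : 0 < n := lt_of_le_of_lt (Nat.zero_le _) i.2
  unfold T
  split_ifs
  swap
  · rfl
  rw [Finset.card_eq_zero, Finset.filter_eq_empty_iff]
  rintro ⟨a, b, c⟩ _ hC
  simp only at hC
  unfold C Y at hC
  obtain ⟨α, hα⟩ : ∃ α : ℕ, (j : ℕ) = i + α := ⟨j - i, by omega⟩
  obtain ⟨β, hβ⟩ : ∃ β : ℕ, (l : ℕ) = j + β := ⟨l - j, by omega⟩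
  have hα1 : 0 < α := by omega
  have hβ1 : 0 < β := by omega
  have hK' : n < α * β := by
    have e1 : (j : ℕ) - i = α := by omega
    have e2 : (l : ℕ) - j = β := by omega
    rwa [e1, e2] at hK
  have hfl : ∀ m : ℕ, (n : ℤ) * ((w * m * m / n : ℕ) : ℤ) ≤ w * m * m ∧
      (w : ℤ) * m * m < n * ((w * m * m / n : ℕ) : ℤ) + n := by
    intro m
    have h1 := Nat.div_add_mod (w * m * m) n
    have h2 := Nat.mod_lt (w * m * m) hn
    have h1' : (n : ℤ) * ((w * m * m / n : ℕ) : ℤ) + ((w * m * m % n : ℕ) : ℤ) = w * m * m := by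
      exact_mod_cast h1
    have h2' : ((w * m * m % n : ℕ) : ℤ) < n := by exact_mod_cast h2
    have h3' : (0 : ℤ) ≤ ((w * m * m % n : ℕ) : ℤ) := Int.natCast_nonneg _
    constructor <;> linarith
  obtain ⟨fi1, fi2⟩ := hfl i
  obtain ⟨fj1, fj2⟩ := hfl j
  obtain ⟨fl1, fl2⟩ := hfl l
  have ha : ((a : ℕ) : ℤ) ≤ w - 1 := by have := a.2; omega
  have hb : ((b : ℕ) : ℤ) ≤ w - 1 := by have := b.2; omega
  have hc : ((c : ℕ) : ℤ) ≤ w - 1 := by have := c.2; omega
  have ha0 : (0 : ℤ) ≤ ((a : ℕ) : ℤ) := Int.natCast_nonneg _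
  have hb0 : (0 : ℤ) ≤ ((b : ℕ) : ℤ) := Int.natCast_nonneg _
  have hc0 : (0 : ℤ) ≤ ((c : ℕ) : ℤ) := Int.natCast_nonneg _
  have hj' : ((j : ℕ) : ℤ) = (i : ℕ) + α := by exact_mod_cast hα
  have hl' : ((l : ℕ) : ℤ) = (i : ℕ) + α + β := by
    rw [hβ, hα]; push_cast; ring
  have hα' : (0 : ℤ) < α := by exact_mod_cast hα1
  have hβ' : (0 : ℤ) < β := by exact_mod_cast hβ1
  have hKz : (n : ℤ) < α * β := by exact_mod_cast hK'
  have hwpos : (0 : ℤ) < w := by
    have := a.2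
    exact_mod_cast (by omega : 0 < w)
  have hnz : (0 : ℤ) < n := by exact_mod_cast hn
  have hF : ∀ m : ℕ, (F n w m : ℤ) = w * m + ((w * m * m / n : ℕ) : ℤ) := by
    intro m; unfold F; rw [Nat.cast_add, Nat.cast_mul]
  rw [hF, hF, hF] at hC
  generalize ((w * (i : ℕ) * (i : ℕ) / n : ℕ) : ℤ) = A at *
  generalize ((w * (j : ℕ) * (j : ℕ) / n : ℕ) : ℤ) = B at *
  generalize ((w * (l : ℕ) * (l : ℕ) / n : ℕ) : ℤ) = D at *
  rw [hj', hl'] at hC
  rw [hj'] at fj1 fj2
  rw [hl'] at fl1 fl2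
  generalize ((i : ℕ) : ℤ) = I at *
  generalize ((a : ℕ) : ℤ) = a' at *
  generalize ((b : ℕ) : ℤ) = b' at *
  generalize ((c : ℕ) : ℤ) = c' at *
  generalize (α : ℤ) = α' at *
  generalize (β : ℤ) = β' at *
  generalize (n : ℤ) = n' at *
  generalize (w : ℤ) = w' at *
  have key : α' * (n' * D) + β' * (n' * A) + n' * (α' * c' + β' * a') =
      (α' + β') * (n' * B) + n' * ((α' + β') * b') := by
    linear_combination n' * hC
  have g1 : α' * (w' * (I + α' + β') * (I + α' + β')) ≤ α' * (n' * D + n') :=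
    mul_le_mul_of_nonneg_left fl2.le hα'.le
  have g2 : β' * (w' * I * I) ≤ β' * (n' * A + n') := mul_le_mul_of_nonneg_left fi2.le hβ'.le
  have g3 : (α' + β') * (n' * B) ≤ (α' + β') * (w' * (I + α') * (I + α')) :=
    mul_le_mul_of_nonneg_left fj1 (by linarith)
  have g4 : 0 ≤ n' * (α' * c' + β' * a') := by positivity
  have g5 : n' * ((α' + β') * b') ≤ n' * ((α' + β') * (w' - 1)) :=
    mul_le_mul_of_nonneg_left (mul_le_mul_of_nonneg_left hb (by linarith)) hnz.le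
  have g6 : (α' + β') * (w' * (α' * β')) ≤ (α' + β') * (w' * n') := by
    nlinarith
  have g7 : w' * (α' * β') ≤ w' * n' := le_of_mul_le_mul_left g6 (by linarith)
  have g8 : α' * β' ≤ n' := le_of_mul_le_mul_left g7 hwpos
  linarith

/-- residue classes in an interval of values -/
theorem T_le {n w : ℕ} (i j l : Fin n) (hij : (i : ℕ) < j) (hjl : (j : ℕ) < l) :
    T (C n w) i j l ≤ w * (w / ((((j : ℕ) - i) + ((l : ℕ) - j)) /
      Nat.gcd ((j : ℕ) - i) ((l : ℕ) - j)) + 1) := by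
  classical
  unfold T
  split_ifs
  swap
  · exact Nat.zero_le _
  obtain ⟨α, hα⟩ : ∃ α : ℕ, (j : ℕ) = i + α := ⟨j - i, by omega⟩
  obtain ⟨β, hβ⟩ : ∃ β : ℕ, (l : ℕ) = j + β := ⟨l - j, by omega⟩
  have e1 : (j : ℕ) - i = α := by omega
  have e2 : (l : ℕ) - j = β := by omega
  have hα1 : 0 < α := by omega
  have hβ1 : 0 < β := by omega
  rw [e1, e2]
  set g := Nat.gcd α β with hg
  have hg0 : 0 < g := Nat.gcd_pos_of_pos_left _ hα1
  set q := (α + β) / g with hq
  have hgα : g ∣ α := Nat.gcd_dvd_left _ _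
  have hgβ : g ∣ β := Nat.gcd_dvd_right _ _
  have hqg : g * q = α + β := Nat.mul_div_cancel' (Nat.dvd_add hgα hgβ)
  have hq0 : 0 < q := by
    rcases Nat.eq_zero_or_pos q with h | h
    · rw [h, mul_zero] at hqg; omega
    · exact h
  obtain ⟨α1, hα1'⟩ := hgα
  have hcop : Nat.Coprime q α1 := by
    have h1 : Nat.gcd (α + β) α = g := by
      rw [Nat.gcd_comm, Nat.gcd_self_add_right]
    rw [← hqg, hα1', Nat.gcd_mul_left] at h1
    exact Nat.eq_of_mul_eq_mul_left hg0 (by rw [h1, mul_one])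
  have hcard : w * (w / q + 1) = (Finset.univ : Finset (Fin w × Fin (w / q + 1))).card := by
    rw [Finset.card_univ, Fintype.card_prod, Fintype.card_fin, Fintype.card_fin]
  rw [hcard]
  have key : ∀ a b c : Fin w, C n w i j l a b c →
      (q : ℤ) ∣ Y n w l c - Y n w i a ∧ (α : ℤ) * (Y n w l c - Y n w i a) =
        ((α : ℤ) + β) * (Y n w j b - Y n w i a) := by
    intro a b c h
    unfold C at h
    have hj' : ((j : ℕ) : ℤ) - (i : ℕ) = α := by rw [hα]; push_cast; ring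
    have hl' : ((l : ℕ) : ℤ) - (i : ℕ) = α + β := by rw [hβ, hα]; push_cast; ring
    rw [hj', hl'] at h
    refine ⟨?_, h⟩
    have e3 : (α : ℤ) = g * α1 := by exact_mod_cast hα1'
    have e4 : (α : ℤ) + β = g * q := by exact_mod_cast hqg.symm
    rw [e4, e3, mul_assoc, mul_assoc] at h
    have h2 := mul_left_cancel₀ (by exact_mod_cast hg0.ne' : (g : ℤ) ≠ 0) h
    have h3 : (q : ℤ) ∣ α1 * (Y n w l c - Y n w i a) := ⟨_, h2⟩
    exact IsCoprime.dvd_of_dvd_mul_left (Nat.isCoprime_iff_coprime.2 hcop) h3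
  apply Finset.card_le_card_of_injOn (fun t : Fin w × Fin w × Fin w =>
    ((t.1, ⟨(t.2.2 : ℕ) / q, Nat.lt_succ_of_le (Nat.div_le_div_right t.2.2.2.le)⟩) :
      Fin w × Fin (w / q + 1)))
  · intro t _
    exact Finset.mem_coe.2 (Finset.mem_univ _)
  · rintro ⟨a, b, c⟩ h1 ⟨a', b', c'⟩ h2 h
    simp only [Finset.coe_filter, Finset.mem_univ, true_and, Set.mem_ofPred_eq] at h1 h2
    simp only [Prod.mk.injEq, Fin.mk.injEq] at h
    obtain ⟨rfl, hc⟩ := h
    obtain ⟨d1, k1⟩ := key _ _ _ h1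
    obtain ⟨d2, k2⟩ := key _ _ _ h2
    have hcc : c = c' := by
      have d3 : (q : ℤ) ∣ (c : ℤ) - (c' : ℤ) := by
        have := dvd_sub d1 d2
        unfold Y at this
        have e : ((F n w l : ℤ) + ((c : ℕ) : ℤ) - ((F n w i : ℤ) + ((a : ℕ) : ℤ))) -
          ((F n w l : ℤ) + ((c' : ℕ) : ℤ) - ((F n w i : ℤ) + ((a : ℕ) : ℤ))) =
            ((c : ℕ) : ℤ) - ((c' : ℕ) : ℤ) := by ring
        rwa [e] at this
      have d4 : (c : ℕ) ≡ (c' : ℕ) [MOD q] := by
        rw [Nat.modEq_iff_dvd]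
        have := (dvd_neg.2 d3)
        rwa [neg_sub] at this
      apply Fin.ext
      have m1 := Nat.div_add_mod (c : ℕ) q
      have m2 := Nat.div_add_mod (c' : ℕ) q
      rw [← m1, ← m2, hc, d4]
    subst hcc
    have hbb : b = b' := by
      rw [k1] at k2
      have hpos : (0 : ℤ) < (α : ℤ) + β := by exact_mod_cast (by omega : 0 < α + β)
      have h3 := mul_left_cancel₀ hpos.ne' k2
      unfold Y at h3
      apply Fin.ext
      have : ((b : ℕ) : ℤ) = (b' : ℕ) := by linarith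
      exact_mod_cast this
    rw [hbb]

/-- real form of the bound -/
noncomputable def bd (w : ℕ) (p : ℕ × ℕ) : ℝ :=
  w * (w * ((Nat.gcd p.1 p.2 : ℝ) / (p.1 + p.2)) + 1)

theorem T_le_bd {n w : ℕ} (i j l : Fin n) (hij : (i : ℕ) < j) (hjl : (j : ℕ) < l) :
    (T (C n w) i j l : ℝ) ≤ bd w ((j : ℕ) - i, (l : ℕ) - j) := by
  have h := T_le (w := w) i j l hij hjl
  have h' : (T (C n w) i j l : ℝ) ≤ ((w * (w / ((((j : ℕ) - i) + ((l : ℕ) - j)) /
      Nat.gcd ((j : ℕ) - i) ((l : ℕ) - j)) + 1) : ℕ) : ℝ) := by exact_mod_cast h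
  refine h'.trans ?_
  unfold bd
  simp only
  set α := (j : ℕ) - i
  set β := (l : ℕ) - j
  have hα : 0 < α := by omega
  set g := Nat.gcd α β with hg
  have hg0 : 0 < g := Nat.gcd_pos_of_pos_left _ hα
  have hgd : g ∣ α + β := Nat.dvd_add (Nat.gcd_dvd_left _ _) (Nat.gcd_dvd_right _ _)
  push_cast
  apply mul_le_mul_of_nonneg_left _ (Nat.cast_nonneg w)
  have h1 : ((w / ((α + β) / g) : ℕ) : ℝ) ≤ (w : ℝ) / (((α + β) / g : ℕ) : ℝ) := Nat.cast_div_le
  have h2 : (((α + β) / g : ℕ) : ℝ) = ((α : ℝ) + β) / g := by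
    rw [Nat.cast_div hgd (by exact_mod_cast hg0.ne')]; push_cast; ring
  rw [h2] at h1
  have h3 : (w : ℝ) / (((α : ℝ) + β) / g) = w * ((g : ℝ) / (α + β)) := by
    have : (0 : ℝ) < g := by exact_mod_cast hg0
    field_simp
  linarith

theorem bd_nonneg (w : ℕ) (p : ℕ × ℕ) : 0 ≤ bd w p := by
  unfold bd; positivity

/-- sum over one order class -/
theorem sum_class {n w : ℕ} (S : Finset (Fin n × Fin n)) (τ : Fin n × Fin n → ℝ)
    (φ : Fin n × Fin n → ℕ × ℕ) (hinj : Set.InjOn φ S)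
    (h1 : ∀ p ∈ S, τ p ≤ bd w (φ p)) (h2 : ∀ p ∈ S, φ p ∉ A n → τ p ≤ 0) :
    ∑ p ∈ S, τ p ≤ ∑ p ∈ A n, bd w p := by
  classical
  rw [← Finset.sum_filter_add_sum_filter_not S (fun p => φ p ∈ A n)]
  have e1 : ∑ p ∈ S.filter (fun p => φ p ∉ A n), τ p ≤ 0 :=
    Finset.sum_nonpos (fun p hp => h2 p (Finset.mem_filter.1 hp).1 (Finset.mem_filter.1 hp).2)
  have e2 : ∑ p ∈ S.filter (fun p => φ p ∈ A n), τ p ≤
      ∑ p ∈ S.filter (fun p => φ p ∈ A n), bd w (φ p) :=
    Finset.sum_le_sum (fun p hp => h1 p (Finset.mem_filter.1 hp).1)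
  have e3 : ∑ p ∈ S.filter (fun p => φ p ∈ A n), bd w (φ p) =
      ∑ q ∈ (S.filter (fun p => φ p ∈ A n)).image φ, bd w q := by
    rw [Finset.sum_image]
    intro a ha b hb h
    exact hinj (Finset.mem_filter.1 ha).1 (Finset.mem_filter.1 hb).1 h
  have e4 : ∑ q ∈ (S.filter (fun p => φ p ∈ A n)).image φ, bd w q ≤ ∑ p ∈ A n, bd w p := by
    apply Finset.sum_le_sum_of_subset_of_nonneg
    · intro q hq
      rw [Finset.mem_image] at hq
      obtain ⟨p, hp, rfl⟩ := hq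
      exact (Finset.mem_filter.1 hp).2
    · intro q _ _
      exact bd_nonneg w q
  linarith

theorem sum_bd {n w : ℕ} (hn : 1 ≤ n) : ∑ p ∈ A n, bd w p ≤
    (w : ℝ) * (w * (Real.sqrt n * (1 + Real.log n) ^ 2) + n * (1 + Real.log n)) := by
  unfold bd
  rw [← Finset.mul_sum, Finset.sum_add_distrib, ← Finset.mul_sum]
  apply mul_le_mul_of_nonneg_left _ (Nat.cast_nonneg w)
  have h1 := sum_A hn
  have h2 := card_A hn
  apply add_le_add
  · exact mul_le_mul_of_nonneg_left h1 (Nat.cast_nonneg w)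
  · rw [Finset.sum_const, nsmul_eq_mul, mul_one]
    exact h2

/-- the total over all pairs -/
theorem sum_T {n w : ℕ} (x : Fin n) :
    (∑ p : Fin n × Fin n, T (C n w) x p.1 p.2 : ℕ) ≤ 6 * ∑ p ∈ A n, bd w p := by
  classical
  push_cast
  set τ : Fin n × Fin n → ℝ := fun p => (T (C n w) x p.1 p.2 : ℝ) with hτ
  have hτ0 : ∀ p, ¬ (x ≠ p.1 ∧ p.1 ≠ p.2 ∧ x ≠ p.2) → τ p = 0 := by
    intro p hp
    rw [hτ]; simp only; unfold T; rw [if_neg hp]; simp
  set S1 := (univ : Finset (Fin n × Fin n)).filter (fun p => (x : ℕ) < p.1 ∧ (p.1 : ℕ) < p.2)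
  set S2 := (univ : Finset (Fin n × Fin n)).filter (fun p => (x : ℕ) < p.2 ∧ (p.2 : ℕ) < p.1)
  set S3 := (univ : Finset (Fin n × Fin n)).filter (fun p => (p.1 : ℕ) < x ∧ (x : ℕ) < p.2)
  set S4 := (univ : Finset (Fin n × Fin n)).filter (fun p => (p.2 : ℕ) < x ∧ (x : ℕ) < p.1)
  set S5 := (univ : Finset (Fin n × Fin n)).filter (fun p => (p.1 : ℕ) < p.2 ∧ (p.2 : ℕ) < x)
  set S6 := (univ : Finset (Fin n × Fin n)).filter (fun p => (p.2 : ℕ) < p.1 ∧ (p.1 : ℕ) < x)
  have hcov : ∑ p : Fin n × Fin n, τ p ≤ (∑ p ∈ S1, τ p) + (∑ p ∈ S2, τ p) + (∑ p ∈ S3, τ p) +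
      (∑ p ∈ S4, τ p) + (∑ p ∈ S5, τ p) + (∑ p ∈ S6, τ p) := by
    simp only [S1, S2, S3, S4, S5, S6, Finset.sum_filter, ← Finset.sum_add_distrib]
    apply Finset.sum_le_sum
    rintro ⟨y, z⟩ _
    have hpos : 0 ≤ τ (y, z) := by rw [hτ]; positivity
    by_cases h : x ≠ y ∧ y ≠ z ∧ x ≠ z
    · have h1 : (x : ℕ) ≠ y := fun e => h.1 (Fin.ext e)
      have h2 : (y : ℕ) ≠ z := fun e => h.2.1 (Fin.ext e)
      have h3 : (x : ℕ) ≠ z := fun e => h.2.2 (Fin.ext e)
      simp only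
      have hc : ((x : ℕ) < y ∧ (y : ℕ) < z) ∨ ((x : ℕ) < z ∧ (z : ℕ) < y) ∨
          ((y : ℕ) < x ∧ (x : ℕ) < z) ∨ ((z : ℕ) < x ∧ (x : ℕ) < y) ∨
          ((y : ℕ) < z ∧ (z : ℕ) < x) ∨ ((z : ℕ) < y ∧ (y : ℕ) < x) := by omega
      have nn : ∀ (P : Prop) [Decidable P], 0 ≤ (if P then τ (y, z) else 0) := by
        intro P _; split_ifs <;> simp [hpos]
      have n1 := nn ((x : ℕ) < y ∧ (y : ℕ) < z)
      have n2 := nn ((x : ℕ) < z ∧ (z : ℕ) < y)
      have n3 := nn ((y : ℕ) < x ∧ (x : ℕ) < z)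
      have n4 := nn ((z : ℕ) < x ∧ (x : ℕ) < y)
      have n5 := nn ((y : ℕ) < z ∧ (z : ℕ) < x)
      have n6 := nn ((z : ℕ) < y ∧ (y : ℕ) < x)
      rcases hc with h' | h' | h' | h' | h' | h' <;>
        [(rw [if_pos h'] at n1 ⊢); (rw [if_pos h'] at n2 ⊢); (rw [if_pos h'] at n3 ⊢);
          (rw [if_pos h'] at n4 ⊢); (rw [if_pos h'] at n5 ⊢); (rw [if_pos h'] at n6 ⊢)] <;>
        linarith
    · have h0 := hτ0 (y, z) h
      rw [h0]
      simp
  have b1 : ∑ p ∈ S1, τ p ≤ ∑ p ∈ A n, bd w p := by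
    apply sum_class S1 τ (fun p => ((p.1 : ℕ) - x, (p.2 : ℕ) - p.1))
    · rintro ⟨y, z⟩ hp ⟨y', z'⟩ hp' h
      simp only [S1, Finset.coe_filter, Finset.mem_univ, true_and, Set.mem_ofPred_eq] at hp hp'
      simp only [Prod.mk.injEq] at h ⊢
      exact ⟨Fin.ext (by omega), Fin.ext (by omega)⟩
    · rintro ⟨y, z⟩ hp
      simp only [S1, Finset.mem_filter, Finset.mem_univ, true_and] at hp
      exact T_le_bd x y z hp.1 hp.2
    · rintro ⟨y, z⟩ hp hA
      simp only [S1, Finset.mem_filter, Finset.mem_univ, true_and] at hp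
      rw [mem_A] at hA
      simp only at hA
      have hK : n < ((y : ℕ) - x) * ((z : ℕ) - y) := by
        by_contra hcon
        push Not at hcon
        exact hA ⟨by omega, by omega, hcon⟩
      have := T_zero (w := w) x y z hp.1 hp.2 hK
      rw [hτ]; simp [this]
  have b2 : ∑ p ∈ S2, τ p ≤ ∑ p ∈ A n, bd w p := by
    apply sum_class S2 τ (fun p => ((p.2 : ℕ) - x, (p.1 : ℕ) - p.2))
    · rintro ⟨y, z⟩ hp ⟨y', z'⟩ hp' h
      simp only [S2, Finset.coe_filter, Finset.mem_univ, true_and, Set.mem_ofPred_eq] at hp hp'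
      simp only [Prod.mk.injEq] at h ⊢
      exact ⟨Fin.ext (by omega), Fin.ext (by omega)⟩
    · rintro ⟨y, z⟩ hp
      simp only [S2, Finset.mem_filter, Finset.mem_univ, true_and] at hp
      refine le_trans ?_ (T_le_bd x z y hp.1 hp.2)
      exact Nat.cast_le.2 (T_swap23 x y z)
    · rintro ⟨y, z⟩ hp hA
      simp only [S2, Finset.mem_filter, Finset.mem_univ, true_and] at hp
      rw [mem_A] at hA
      simp only at hA
      have hK : n < ((z : ℕ) - x) * ((y : ℕ) - z) := by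
        by_contra hcon
        push Not at hcon
        exact hA ⟨by omega, by omega, hcon⟩
      have h0 := T_zero (w := w) x z y hp.1 hp.2 hK
      have h1 := T_swap23 (w := w) x y z
      have h2 : T (C n w) x y z = 0 := by omega
      rw [hτ]; simp [h2]
  have b3 : ∑ p ∈ S3, τ p ≤ ∑ p ∈ A n, bd w p := by
    apply sum_class S3 τ (fun p => ((x : ℕ) - p.1, (p.2 : ℕ) - x))
    · rintro ⟨y, z⟩ hp ⟨y', z'⟩ hp' h
      simp only [S3, Finset.coe_filter, Finset.mem_univ, true_and, Set.mem_ofPred_eq] at hp hp'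
      simp only [Prod.mk.injEq] at h ⊢
      exact ⟨Fin.ext (by omega), Fin.ext (by omega)⟩
    · rintro ⟨y, z⟩ hp
      simp only [S3, Finset.mem_filter, Finset.mem_univ, true_and] at hp
      refine le_trans ?_ (T_le_bd y x z hp.1 hp.2)
      exact Nat.cast_le.2 (T_swap12 x y z)
    · rintro ⟨y, z⟩ hp hA
      simp only [S3, Finset.mem_filter, Finset.mem_univ, true_and] at hp
      rw [mem_A] at hA
      simp only at hA
      have hK : n < ((x : ℕ) - y) * ((z : ℕ) - x) := by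
        by_contra hcon
        push Not at hcon
        exact hA ⟨by omega, by omega, hcon⟩
      have h0 := T_zero (w := w) y x z hp.1 hp.2 hK
      have h1 := T_swap12 (w := w) x y z
      have h2 : T (C n w) x y z = 0 := by omega
      rw [hτ]; simp [h2]
  have b4 : ∑ p ∈ S4, τ p ≤ ∑ p ∈ A n, bd w p := by
    apply sum_class S4 τ (fun p => ((x : ℕ) - p.2, (p.1 : ℕ) - x))
    · rintro ⟨y, z⟩ hp ⟨y', z'⟩ hp' h
      simp only [S4, Finset.coe_filter, Finset.mem_univ, true_and, Set.mem_ofPred_eq] at hp hp'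
      simp only [Prod.mk.injEq] at h ⊢
      exact ⟨Fin.ext (by omega), Fin.ext (by omega)⟩
    · rintro ⟨y, z⟩ hp
      simp only [S4, Finset.mem_filter, Finset.mem_univ, true_and] at hp
      refine le_trans ?_ (T_le_bd z x y hp.1 hp.2)
      exact Nat.cast_le.2 ((T_swap23 x y z).trans (T_swap12 x z y))
    · rintro ⟨y, z⟩ hp hA
      simp only [S4, Finset.mem_filter, Finset.mem_univ, true_and] at hp
      rw [mem_A] at hA
      simp only at hA
      have hK : n < ((x : ℕ) - z) * ((y : ℕ) - x) := by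
        by_contra hcon
        push Not at hcon
        exact hA ⟨by omega, by omega, hcon⟩
      have h0 := T_zero (w := w) z x y hp.1 hp.2 hK
      have h1 := (T_swap23 (w := w) x y z).trans (T_swap12 x z y)
      have h2 : T (C n w) x y z = 0 := by omega
      rw [hτ]; simp [h2]
  have b5 : ∑ p ∈ S5, τ p ≤ ∑ p ∈ A n, bd w p := by
    apply sum_class S5 τ (fun p => ((p.2 : ℕ) - p.1, (x : ℕ) - p.2))
    · rintro ⟨y, z⟩ hp ⟨y', z'⟩ hp' h
      simp only [S5, Finset.coe_filter, Finset.mem_univ, true_and, Set.mem_ofPred_eq] at hp hp'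
      simp only [Prod.mk.injEq] at h ⊢
      exact ⟨Fin.ext (by omega), Fin.ext (by omega)⟩
    · rintro ⟨y, z⟩ hp
      simp only [S5, Finset.mem_filter, Finset.mem_univ, true_and] at hp
      refine le_trans ?_ (T_le_bd y z x hp.1 hp.2)
      exact Nat.cast_le.2 ((T_swap12 x y z).trans (T_swap23 y x z))
    · rintro ⟨y, z⟩ hp hA
      simp only [S5, Finset.mem_filter, Finset.mem_univ, true_and] at hp
      rw [mem_A] at hA
      simp only at hA
      have hK : n < ((z : ℕ) - y) * ((x : ℕ) - z) := by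
        by_contra hcon
        push Not at hcon
        exact hA ⟨by omega, by omega, hcon⟩
      have h0 := T_zero (w := w) y z x hp.1 hp.2 hK
      have h1 := (T_swap12 (w := w) x y z).trans (T_swap23 y x z)
      have h2 : T (C n w) x y z = 0 := by omega
      rw [hτ]; simp [h2]
  have b6 : ∑ p ∈ S6, τ p ≤ ∑ p ∈ A n, bd w p := by
    apply sum_class S6 τ (fun p => ((p.1 : ℕ) - p.2, (x : ℕ) - p.1))
    · rintro ⟨y, z⟩ hp ⟨y', z'⟩ hp' h
      simp only [S6, Finset.coe_filter, Finset.mem_univ, true_and, Set.mem_ofPred_eq] at hp hp'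
      simp only [Prod.mk.injEq] at h ⊢
      exact ⟨Fin.ext (by omega), Fin.ext (by omega)⟩
    · rintro ⟨y, z⟩ hp
      simp only [S6, Finset.mem_filter, Finset.mem_univ, true_and] at hp
      refine le_trans ?_ (T_le_bd z y x hp.1 hp.2)
      exact Nat.cast_le.2 (((T_swap12 x y z).trans (T_swap23 y x z)).trans (T_swap12 y z x))
    · rintro ⟨y, z⟩ hp hA
      simp only [S6, Finset.mem_filter, Finset.mem_univ, true_and] at hp
      rw [mem_A] at hA
      simp only at hA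
      have hK : n < ((y : ℕ) - z) * ((x : ℕ) - y) := by
        by_contra hcon
        push Not at hcon
        exact hA ⟨by omega, by omega, hcon⟩
      have h0 := T_zero (w := w) z y x hp.1 hp.2 hK
      have h1 := ((T_swap12 (w := w) x y z).trans (T_swap23 y x z)).trans (T_swap12 y z x)
      have h2 : T (C n w) x y z = 0 := by omega
      rw [hτ]; simp [h2]
  linarith

/-- there is a good choice of offsets -/
theorem exists_offsets {n w : ℕ} (hn : 1 ≤ n)
    (hw : 100 * (Real.sqrt n * (1 + Real.log n) ^ 2) ≤ w) :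
    ∃ c : Fin n → Fin w, ∀ x y z : Fin n, x ≠ y → y ≠ z → x ≠ z →
      ¬ C n w x y z (c x) (c y) (c z) := by
  have hlog : 0 ≤ Real.log n := Real.log_nonneg (by exact_mod_cast hn)
  have hs : 1 ≤ Real.sqrt n := by
    rw [← Real.sqrt_one]; exact Real.sqrt_le_sqrt (by exact_mod_cast hn)
  have hss : Real.sqrt n * Real.sqrt n = n := Real.mul_self_sqrt (Nat.cast_nonneg n)
  set L := 1 + Real.log n with hL
  set s := Real.sqrt n with hsdef
  have hL1 : 1 ≤ L := by linarith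
  have hw0 : 100 ≤ (w : ℝ) := by nlinarith [mul_pos (show 0 < s by linarith) (show 0 < L by linarith)]
  have hwne : NeZero w := ⟨by
    rintro rfl
    norm_num at hw0⟩
  apply exists_good C_s1 C_s2
  intro x
  have h1 := sum_T (w := w) x
  have h2 := sum_bd (w := w) hn
  rw [← hL, ← hsdef] at h2
  have h3 : (8 : ℝ) * ((∑ p : Fin n × Fin n, T (C n w) x p.1 p.2 : ℕ) : ℝ) ≤ (w : ℝ) ^ 3 := by
    have hsL : 0 ≤ s * L ^ 2 := by positivity
    have e1 : w * (s * L ^ 2) ≤ (w : ℝ) * (w / 100) := by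
      apply mul_le_mul_of_nonneg_left _ (Nat.cast_nonneg w)
      linarith
    have e2 : (n : ℝ) * L ≤ w ^ 2 / 10000 := by
      have e3 : (s * L ^ 2) * (s * L ^ 2) ≤ (w / 100) * (w / 100) := by
        apply mul_self_le_mul_self hsL
        linarith
      have e4 : (n : ℝ) * L ≤ (s * L ^ 2) * (s * L ^ 2) := by
        have : (s * L ^ 2) * (s * L ^ 2) = n * L ^ 4 := by rw [← hss]; ring
        rw [this]
        apply mul_le_mul_of_nonneg_left _ (Nat.cast_nonneg n)
        calc L = L ^ 1 := (pow_one L).symm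
          _ ≤ L ^ 4 := pow_le_pow_right₀ hL1 (by norm_num)
      nlinarith
    have e5 : (w : ℝ) * (w * (s * L ^ 2) + n * L) ≤ w * (w * (w / 100) + w ^ 2 / 10000) := by
      apply mul_le_mul_of_nonneg_left _ (Nat.cast_nonneg w)
      linarith
    have e6 : 0 ≤ (w : ℝ) ^ 3 := by positivity
    calc (8 : ℝ) * ((∑ p : Fin n × Fin n, T (C n w) x p.1 p.2 : ℕ) : ℝ)
        ≤ 8 * (6 * (w * (w * (s * L ^ 2) + n * L))) := by linarith
      _ ≤ 8 * (6 * (w * (w * (w / 100) + w ^ 2 / 10000))) := by linarith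
      _ = (48 / 100 + 48 / 10000) * (w : ℝ) ^ 3 := by ring
      _ ≤ (w : ℝ) ^ 3 := by linarith
  exact_mod_cast h3

end Pool.Agent.V11161.SeqBuild
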