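import Mathlib

set_option autoImplicit false

/-! Point sets in the plane, lines, general-position partitions: definitions. -/

namespace Pool.Agent.V11161.GP

open Finset Classical

/-- points of the plane -/
abbrev Pt := ℝ × ℝ

/-- `L` is a line of the plane -/
def IsLine (L : Set Pt) : Prop :=
  ∃ a b c : ℝ, (a ≠ 0 ∨ b ≠ 0) ∧ L = {p : Pt | a * p.1 + b * p.2 = c}

/-- no three (distinct) points of `C` are collinear -/
def GenPos (C : Finset Pt) : Prop :=
  ∀ x ∈ C, ∀ y ∈ C, ∀ z ∈ C, x ≠ y → y ≠ z → x ≠ z →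
    ¬ ∃ L, IsLine L ∧ x ∈ L ∧ y ∈ L ∧ z ∈ L

/-- the largest number of points of `S` on one line -/
noncomputable def onLine (S : Finset Pt) : ℕ :=
  sSup {n | ∃ L, IsLine L ∧ (S.filter fun p => p ∈ L).card = n}

/-- the least number of lines whose union contains `S` -/
noncomputable def LC (S : Finset Pt) : ℕ :=
  sInf {k | ∃ L : Fin k → Set Pt, (∀ i, IsLine (L i)) ∧ ∀ p ∈ S, ∃ i, p ∈ L i}

/-- the least number of parts in a partition of `S` into sets in general position
(a partition into at most `g` parts is a colouring of `S` with the colours `0, …, g-1`) -/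
noncomputable def GPnum (S : Finset Pt) : ℕ :=
  sInf {g | ∃ c : Pt → ℕ, (∀ p ∈ S, c p < g) ∧ ∀ i, GenPos (S.filter fun p => c p = i)}

/-- the least `n` such that every configuration `S` with `LC S ≤ k` and at least `n` points has
`GP S = ⌈ONLINE S / 2⌉` -/
noncomputable def Nk (k : ℕ) : ℕ :=
  sInf {n | ∀ S : Finset Pt, LC S ≤ k → n ≤ S.card → GPnum S = (onLine S + 1) / 2}

end Pool.Agent.V11161.GP
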