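import Pool.Agent.V11161.GPDefs
import Pool.Agent.H542R2.RK.P_LLL

set_option autoImplicit false

namespace Pool.Agent.V11161.GP

open Finset Classical

theorem line_unique {L L' : Set Pt} (hL : IsLine L) (hL' : IsLine L') {x y : Pt} (hxy : x ≠ y)
    (h1 : x ∈ L) (h2 : y ∈ L) (h3 : x ∈ L') (h4 : y ∈ L') : L = L' := by
  obtain ⟨a, b, c, hab, rfl⟩ := hL
  obtain ⟨a', b', c', hab', rfl⟩ := hL'
  simp only [Set.mem_ofPred_eq] at h1 h2 h3 h4
  -- direction vector
  have hd : x.1 - y.1 ≠ 0 ∨ x.2 - y.2 ≠ 0 := by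
    by_contra hcon
    push Not at hcon
    exact hxy (Prod.ext (by linarith [hcon.1]) (by linarith [hcon.2]))
  have e1 : a * (x.1 - y.1) + b * (x.2 - y.2) = 0 := by linarith
  have e2 : a' * (x.1 - y.1) + b' * (x.2 - y.2) = 0 := by linarith
  have hdet : a * b' = a' * b := by
    rcases hd with hd | hd
    · have : (a * b' - a' * b) * (x.1 - y.1) = 0 := by linear_combination b' * e1 - b * e2
      rcases mul_eq_zero.1 this with h | h
      · linarith
      · exact absurd h hd
    · have : (a * b' - a' * b) * (x.2 - y.2) = 0 := by linear_combination a * e2 - a' * e1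
      rcases mul_eq_zero.1 this with h | h
      · linarith
      · exact absurd h hd
  ext p
  simp only [Set.mem_ofPred_eq]
  constructor
  · intro hp
    have f1 : a * (p.1 - x.1) + b * (p.2 - x.2) = 0 := by linarith
    have f2 : a' * (p.1 - x.1) + b' * (p.2 - x.2) = 0 := by
      rcases hab with h | h
      · have : a * (a' * (p.1 - x.1) + b' * (p.2 - x.2)) = 0 := by
          linear_combination a' * f1 + (p.2 - x.2) * hdet
        rcases mul_eq_zero.1 this with h' | h'
        · exact absurd h' h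
        · exact h'
      · have : b * (a' * (p.1 - x.1) + b' * (p.2 - x.2)) = 0 := by
          linear_combination b' * f1 - (p.1 - x.1) * hdet
        rcases mul_eq_zero.1 this with h' | h'
        · exact absurd h' h
        · exact h'
    linarith
  · intro hp
    have f1 : a' * (p.1 - x.1) + b' * (p.2 - x.2) = 0 := by linarith
    have f2 : a * (p.1 - x.1) + b * (p.2 - x.2) = 0 := by
      rcases hab' with h | h
      · have : a' * (a * (p.1 - x.1) + b * (p.2 - x.2)) = 0 := by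
          linear_combination a * f1 - (p.2 - x.2) * hdet
        rcases mul_eq_zero.1 this with h' | h'
        · exact absurd h' h
        · exact h'
      · have : b' * (a * (p.1 - x.1) + b * (p.2 - x.2)) = 0 := by
          linear_combination b * f1 + (p.1 - x.1) * hdet
        rcases mul_eq_zero.1 this with h' | h'
        · exact absurd h' h
        · exact h'
    linarith

/-- one coordinate of the lopsided counting -/
theorem one_coord {k N : ℕ} (i : Fin k) (a s : Fin N)
    (P : (Fin k → Equiv.Perm (Fin N)) → Prop)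
    (hP : ∀ σ, σ i a = s → P σ → ∀ b, P (Function.update σ i (Equiv.swap s b * σ i))) :
    N * (univ.filter fun σ : Fin k → Equiv.Perm (Fin N) => σ i a = s ∧ P σ).card ≤
      (univ.filter fun σ : Fin k → Equiv.Perm (Fin N) => P σ).card := by
  have h1 : (((univ : Finset (Fin N)) ×ˢ
      (univ.filter fun σ : Fin k → Equiv.Perm (Fin N) => σ i a = s ∧ P σ))).card ≤
      (univ.filter fun σ : Fin k → Equiv.Perm (Fin N) => P σ).card := by
    refine Finset.card_le_card_of_injOn
      (fun x => Function.update x.2 i (Equiv.swap s x.1 * x.2 i)) ?_ ?_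
    · intro x hx
      have hx' := (Finset.mem_product.1 (Finset.mem_coe.1 hx)).2
      rw [Finset.mem_filter] at hx'
      refine Finset.mem_coe.2 (Finset.mem_filter.2 ⟨mem_univ _, ?_⟩)
      exact hP _ hx'.2.1 hx'.2.2 _
    · rintro ⟨b, σ⟩ hx ⟨b', σ'⟩ hy hxy
      have hx' := (Finset.mem_filter.1 (Finset.mem_product.1 (Finset.mem_coe.1 hx)).2).2.1
      have hy' := (Finset.mem_filter.1 (Finset.mem_product.1 (Finset.mem_coe.1 hy)).2).2.1
      simp only at hx' hy' hxy
      have e1 := congrFun hxy i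
      rw [Function.update_self, Function.update_self] at e1
      have e2 : (Equiv.swap s b * σ i) a = (Equiv.swap s b' * σ' i) a := by rw [e1]
      rw [Equiv.Perm.mul_apply, Equiv.Perm.mul_apply, hx', hy', Equiv.swap_apply_left,
        Equiv.swap_apply_left] at e2
      subst e2
      have e3 : σ i = σ' i := mul_left_cancel e1
      have e4 : σ = σ' := by
        funext j
        by_cases hj : j = i
        · rw [hj]; exact e3
        · have := congrFun hxy j
          rw [Function.update_of_ne hj, Function.update_of_ne hj] at this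
          exact this
      rw [e4]
  rwa [Finset.card_product, Finset.card_univ, Fintype.card_fin] at h1

/-- avoiding is preserved by the modification -/
theorem avoid_update {k N : ℕ} (idx : Pt → Fin k) (e : Pt → Fin N)
    (T : Finset (Fin 3 → Pt × Fin N)) (i : Fin k) (a s : Fin N)
    (hT : ∀ w ∈ T, ∀ b, idx (w b).1 = i → e (w b).1 ≠ a ∧ (w b).2 ≠ s)
    (σ : Fin k → Equiv.Perm (Fin N)) (hσ : σ i a = s)
    (hav : ∀ w ∈ T, ¬ ∀ b, σ (idx (w b).1) (e (w b).1) = (w b).2) (b0 : Fin N) :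
    ∀ w ∈ T, ¬ ∀ b, (Function.update σ i (Equiv.swap s b0 * σ i)) (idx (w b).1) (e (w b).1)
      = (w b).2 := by
  intro w hw hcon
  refine hav w hw fun b => ?_
  have h1 := hcon b
  by_cases hi : idx (w b).1 = i
  · obtain ⟨h2, h3⟩ := hT w hw b hi
    rw [hi, Function.update_self, Equiv.Perm.mul_apply] at h1
    rw [hi]
    have h4 : σ i (e (w b).1) ≠ s := by
      intro h
      rw [← hσ] at h
      exact h2 ((σ i).injective h)
    by_cases h5 : σ i (e (w b).1) = b0
    · rw [h5, Equiv.swap_apply_right] at h1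
      exact absurd h1.symm h3
    · rw [Equiv.swap_apply_of_ne_of_ne h4 h5] at h1
      exact h1
  · rw [Function.update_of_ne hi] at h1
    exact h1


/-- the event `w`: every point of the triple gets its prescribed slot -/
def Evt {k N : ℕ} (idx : Pt → Fin k) (e : Pt → Fin N) (w : Fin 3 → Pt × Fin N)
    (σ : Fin k → Equiv.Perm (Fin N)) : Prop :=
  ∀ b, σ (idx (w b).1) (e (w b).1) = (w b).2

/-- the bad events -/
noncomputable def Ev {k N : ℕ} (S : Finset Pt) (idx : Pt → Fin k) :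
    Finset (Fin 3 → Pt × Fin N) :=
  (Fintype.piFinset fun _ => S ×ˢ univ).filter fun w =>
    (∀ a b, a ≠ b → idx (w a).1 ≠ idx (w b).1) ∧ (∃ M, IsLine M ∧ ∀ a, (w a).1 ∈ M) ∧
      ∀ a b, (w a).2.val / 2 = (w b).2.val / 2

theorem mem_Ev {k N : ℕ} {S : Finset Pt} {idx : Pt → Fin k} {w : Fin 3 → Pt × Fin N} :
    w ∈ Ev S idx ↔ (∀ a, (w a).1 ∈ S) ∧ (∀ a b, a ≠ b → idx (w a).1 ≠ idx (w b).1) ∧
      (∃ M, IsLine M ∧ ∀ a, (w a).1 ∈ M) ∧ ∀ a b, (w a).2.val / 2 = (w b).2.val / 2 := by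
  unfold Ev
  rw [Finset.mem_filter, Fintype.mem_piFinset]
  simp only [Finset.mem_product, Finset.mem_univ, and_true]

theorem fin3_ne (b : Fin 3) : b ≠ b + 1 ∧ b ≠ b + 2 ∧ b + 1 ≠ b + 2 ∧
    ∀ c, c = b ∨ c = b + 1 ∨ c = b + 2 := by
  revert b; decide

theorem count_Ev {k N : ℕ} (S : Finset Pt) (L : Fin k → Set Pt) (hL : ∀ i, IsLine (L i))
    (idx : Pt → Fin k) (hidx : ∀ p ∈ S, ∀ i, p ∈ L i ↔ idx p = i)
    (b : Fin 3) (R : Finset (Pt × Fin N)) :
    ((Ev (N := N) S idx).filter fun w => w b ∈ R).card ≤ R.card * (S.card * (k * 4)) := by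
  obtain ⟨hb1, hb2, hb3, hb4⟩ := fin3_ne b
  have h1 : ((Ev (N := N) S idx).filter fun w => w b ∈ R).card ≤
      (R ×ˢ (S ×ˢ ((univ : Finset (Fin k)) ×ˢ (range 2 ×ˢ range 2)))).card := by
    refine Finset.card_le_card_of_injOn (fun w => (w b, ((w (b + 1)).1, (idx (w (b + 2)).1,
      ((w (b + 1)).2.val % 2, (w (b + 2)).2.val % 2))))) ?_ ?_
    · intro w hw
      have hw' := Finset.mem_filter.1 (Finset.mem_coe.1 hw)
      have hw1 := mem_Ev.1 hw'.1
      refine Finset.mem_coe.2 ?_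
      simp only [Finset.mem_product, Finset.mem_range, Finset.mem_univ, true_and]
      exact ⟨hw'.2, hw1.1 _, Nat.mod_lt _ (by norm_num), Nat.mod_lt _ (by norm_num)⟩
    · intro w hw w' hw' hww
      obtain ⟨hS, hd, ⟨M, hM, hMw⟩, hc⟩ := mem_Ev.1 (Finset.mem_filter.1 (Finset.mem_coe.1 hw)).1
      obtain ⟨hS', hd', ⟨M', hM', hMw'⟩, hc'⟩ :=
        mem_Ev.1 (Finset.mem_filter.1 (Finset.mem_coe.1 hw')).1
      simp only [Prod.mk.injEq] at hww
      obtain ⟨e1, e2, e3, e4, e5⟩ := hww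
      have hne : (w b).1 ≠ (w (b + 1)).1 := fun h => hd b (b + 1) hb1 (by rw [h])
      have hMM : M = M' := by
        refine line_unique hM hM' hne (hMw b) (hMw _) ?_ ?_
        · rw [e1]; exact hMw' b
        · rw [e2]; exact hMw' _
      have e6 : (w (b + 2)).1 = (w' (b + 2)).1 := by
        by_contra hcon
        have hML : M = L (idx (w (b + 2)).1) := by
          refine line_unique hM (hL _) hcon (hMw _) (by rw [hMM]; exact hMw' _) ?_ ?_
          · exact (hidx _ (hS _) _).2 rfl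
          · exact (hidx _ (hS' _) _).2 e3.symm
        have h7 : (w b).1 ∈ L (idx (w (b + 2)).1) := by rw [← hML]; exact hMw b
        exact hd b (b + 2) hb2 ((hidx _ (hS _) _).1 h7)
      have e7 : (w (b + 1)).2 = (w' (b + 1)).2 := by
        have f1 := hc (b + 1) b
        have f2 := hc' (b + 1) b
        rw [e1] at f1
        apply Fin.ext
        omega
      have e8 : (w (b + 2)).2 = (w' (b + 2)).2 := by
        have f1 := hc (b + 2) b
        have f2 := hc' (b + 2) b
        rw [e1] at f1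
        apply Fin.ext
        omega
      funext c
      rcases hb4 c with rfl | rfl | rfl
      · exact e1
      · exact Prod.ext e2 e7
      · exact Prod.ext e6 e8
  refine h1.trans (le_of_eq ?_)
  simp only [Finset.card_product, Finset.card_univ, Fintype.card_fin, Finset.card_range]

/-- the slots clashing with a given point and slot -/
noncomputable def Rc {k N : ℕ} (S : Finset Pt) (idx : Pt → Fin k) (e : Pt → Fin N)
    (x : Pt × Fin N) : Finset (Pt × Fin N) :=
  (S ×ˢ univ).filter fun y => idx y.1 = idx x.1 ∧ (e y.1 = e x.1 ∨ y.2 = x.2)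

theorem card_Rc {k N : ℕ} (S : Finset Pt) (idx : Pt → Fin k) (e : Pt → Fin N)
    (he : ∀ p ∈ S, ∀ q ∈ S, idx p = idx q → e p = e q → p = q)
    (x : Pt × Fin N) (hx : x.1 ∈ S) : (Rc S idx e x).card ≤ 2 * N := by
  have h1 : Rc S idx e x ⊆ (({x.1} : Finset Pt) ×ˢ (univ : Finset (Fin N))) ∪
      ((S.filter fun p => idx p = idx x.1) ×ˢ ({x.2} : Finset (Fin N))) := by
    intro y hy
    unfold Rc at hy
    rw [Finset.mem_filter, Finset.mem_product] at hy
    obtain ⟨⟨hyS, -⟩, h2, h3⟩ := hy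
    rw [Finset.mem_union, Finset.mem_product, Finset.mem_product]
    rcases h3 with h3 | h3
    · left
      exact ⟨Finset.mem_singleton.2 (he _ hyS _ hx h2 h3), Finset.mem_univ _⟩
    · right
      exact ⟨Finset.mem_filter.2 ⟨hyS, h2⟩, Finset.mem_singleton.2 h3⟩
  have h2 : (S.filter fun p => idx p = idx x.1).card ≤ N := by
    have : (S.filter fun p => idx p = idx x.1).card ≤ (univ : Finset (Fin N)).card := by
      refine Finset.card_le_card_of_injOn e (fun _ _ => Finset.mem_coe.2 (Finset.mem_univ _)) ?_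
      intro p hp q hq hpq
      have hp' := Finset.mem_filter.1 (Finset.mem_coe.1 hp)
      have hq' := Finset.mem_filter.1 (Finset.mem_coe.1 hq)
      exact he _ hp'.1 _ hq'.1 (hp'.2.trans hq'.2.symm) hpq
    rwa [Finset.card_univ, Fintype.card_fin] at this
  refine (Finset.card_le_card h1).trans ((Finset.card_union_le _ _).trans ?_)
  rw [Finset.card_product, Finset.card_product, Finset.card_singleton, Finset.card_singleton,
    Finset.card_univ, Fintype.card_fin]
  omega

/-- the neighbours of an event -/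
noncomputable def Nb {k N : ℕ} (S : Finset Pt) (idx : Pt → Fin k) (e : Pt → Fin N)
    (v : Fin 3 → Pt × Fin N) : Finset (Fin 3 → Pt × Fin N) :=
  (Ev (N := N) S idx).filter fun w => ∃ a b, w b ∈ Rc S idx e (v a)

theorem card_Nb {k N : ℕ} (S : Finset Pt) (L : Fin k → Set Pt) (hL : ∀ i, IsLine (L i))
    (idx : Pt → Fin k) (hidx : ∀ p ∈ S, ∀ i, p ∈ L i ↔ idx p = i) (e : Pt → Fin N)
    (he : ∀ p ∈ S, ∀ q ∈ S, idx p = idx q → e p = e q → p = q)
    (v : Fin 3 → Pt × Fin N) (hv : v ∈ Ev (N := N) S idx) :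
    (Nb S idx e v).card ≤ 72 * k ^ 2 * N ^ 2 := by
  have hvS := (mem_Ev.1 hv).1
  have h1 : Nb S idx e v ⊆ ((univ : Finset (Fin 3)) ×ˢ (univ : Finset (Fin 3))).biUnion
      fun ab => (Ev (N := N) S idx).filter fun w => w ab.2 ∈ Rc S idx e (v ab.1) := by
    intro w hw
    obtain ⟨hw1, a, b, hab⟩ := Finset.mem_filter.1 hw
    exact Finset.mem_biUnion.2 ⟨(a, b), Finset.mem_product.2 ⟨mem_univ _, mem_univ _⟩,
      Finset.mem_filter.2 ⟨hw1, hab⟩⟩
  have hSc : S.card ≤ k * N := by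
    have : S.card ≤ ((univ : Finset (Fin k)) ×ˢ (univ : Finset (Fin N))).card := by
      refine Finset.card_le_card_of_injOn (fun p => (idx p, e p))
        (fun _ _ => Finset.mem_coe.2 (Finset.mem_product.2 ⟨mem_univ _, mem_univ _⟩)) ?_
      intro p hp q hq hpq
      simp only [Prod.mk.injEq] at hpq
      exact he _ (Finset.mem_coe.1 hp) _ (Finset.mem_coe.1 hq) hpq.1 hpq.2
    rwa [Finset.card_product, Finset.card_univ, Finset.card_univ, Fintype.card_fin,
      Fintype.card_fin] at this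
  have h2 : (Nb S idx e v).card ≤ 9 * ((2 * N) * ((k * N) * (k * 4))) := by
    refine (Finset.card_le_card h1).trans ?_
    refine (Finset.card_biUnion_le_card_mul _ _ ((2 * N) * ((k * N) * (k * 4))) ?_).trans ?_
    · intro ab _
      refine (count_Ev S L hL idx hidx ab.2 _).trans ?_
      exact Nat.mul_le_mul (card_Rc S idx e he _ (hvS _)) (Nat.mul_le_mul_right _ hSc)
    · rw [Finset.card_product, Finset.card_univ, Fintype.card_fin]
  refine h2.trans (le_of_eq ?_)
  ring

theorem hind_nat {k N : ℕ} (S : Finset Pt) (idx : Pt → Fin k) (e : Pt → Fin N)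
    (v : Fin 3 → Pt × Fin N) (hv : v ∈ Ev (N := N) S idx)
    (T : Finset (Fin 3 → Pt × Fin N)) (hT : T ⊆ Ev (N := N) S idx)
    (hTn : ∀ w ∈ T, w ∉ Nb S idx e v) :
    N ^ 3 * (univ.filter fun σ : Fin k → Equiv.Perm (Fin N) =>
      Evt idx e v σ ∧ ∀ w ∈ T, ¬ Evt idx e w σ).card ≤
    (univ.filter fun σ : Fin k → Equiv.Perm (Fin N) => ∀ w ∈ T, ¬ Evt idx e w σ).card := by
  have hd := (mem_Ev.1 hv).2.1
  have hno : ∀ a, ∀ w ∈ T, ∀ b, idx (w b).1 = idx (v a).1 →
      e (w b).1 ≠ e (v a).1 ∧ (w b).2 ≠ (v a).2 := by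
    intro a w hw b hi
    by_contra hcon
    refine hTn w hw (Finset.mem_filter.2 ⟨hT hw, a, b, ?_⟩)
    refine Finset.mem_filter.2 ⟨Finset.mem_product.2 ⟨(mem_Ev.1 (hT hw)).1 b, mem_univ _⟩, hi, ?_⟩
    by_contra h2
    push Not at h2
    exact hcon h2
  have k3 := one_coord (idx (v 2).1) (e (v 2).1) (v 2).2
    (fun σ : Fin k → Equiv.Perm (Fin N) => ∀ w ∈ T, ¬ Evt idx e w σ)
    (fun σ h1 h2 b => avoid_update idx e T _ _ _ (hno 2) σ h1 h2 b)
  have k2 := one_coord (idx (v 1).1) (e (v 1).1) (v 1).2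
    (fun σ : Fin k → Equiv.Perm (Fin N) => σ (idx (v 2).1) (e (v 2).1) = (v 2).2 ∧
      ∀ w ∈ T, ¬ Evt idx e w σ)
    (fun σ h1 h2 b => ⟨by
      rw [Function.update_of_ne (hd 2 1 (by decide))]; exact h2.1,
      avoid_update idx e T _ _ _ (hno 1) σ h1 h2.2 b⟩)
  have k1 := one_coord (idx (v 0).1) (e (v 0).1) (v 0).2
    (fun σ : Fin k → Equiv.Perm (Fin N) => σ (idx (v 1).1) (e (v 1).1) = (v 1).2 ∧
      σ (idx (v 2).1) (e (v 2).1) = (v 2).2 ∧ ∀ w ∈ T, ¬ Evt idx e w σ)
    (fun σ h1 h2 b => ⟨by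
      rw [Function.update_of_ne (hd 1 0 (by decide))]; exact h2.1, by
      rw [Function.update_of_ne (hd 2 0 (by decide))]; exact h2.2.1,
      avoid_update idx e T _ _ _ (hno 0) σ h1 h2.2.2 b⟩)
  have hsame : (univ.filter fun σ : Fin k → Equiv.Perm (Fin N) =>
      Evt idx e v σ ∧ ∀ w ∈ T, ¬ Evt idx e w σ) =
      (univ.filter fun σ : Fin k → Equiv.Perm (Fin N) =>
        σ (idx (v 0).1) (e (v 0).1) = (v 0).2 ∧ σ (idx (v 1).1) (e (v 1).1) = (v 1).2 ∧
        σ (idx (v 2).1) (e (v 2).1) = (v 2).2 ∧ ∀ w ∈ T, ¬ Evt idx e w σ) := by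
    refine Finset.filter_congr fun σ _ => ?_
    unfold Evt
    rw [Fin.forall_fin_succ, Fin.forall_fin_succ, Fin.forall_fin_succ]
    constructor
    · rintro ⟨⟨h0, h1, h2, -⟩, h3⟩
      exact ⟨h0, h1, h2, h3⟩
    · rintro ⟨h0, h1, h2, h3⟩
      exact ⟨⟨h0, h1, h2, fun i => i.elim0⟩, h3⟩
  rw [hsame]
  obtain ⟨c0, hc0⟩ : ∃ c, c = (univ.filter fun σ : Fin k → Equiv.Perm (Fin N) =>
        σ (idx (v 0).1) (e (v 0).1) = (v 0).2 ∧ σ (idx (v 1).1) (e (v 1).1) = (v 1).2 ∧
        σ (idx (v 2).1) (e (v 2).1) = (v 2).2 ∧ ∀ w ∈ T, ¬ Evt idx e w σ).card := ⟨_, rfl⟩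
  obtain ⟨c1, hc1⟩ : ∃ c, c = (univ.filter fun σ : Fin k → Equiv.Perm (Fin N) =>
        σ (idx (v 1).1) (e (v 1).1) = (v 1).2 ∧
        σ (idx (v 2).1) (e (v 2).1) = (v 2).2 ∧ ∀ w ∈ T, ¬ Evt idx e w σ).card := ⟨_, rfl⟩
  obtain ⟨c2, hc2⟩ : ∃ c, c = (univ.filter fun σ : Fin k → Equiv.Perm (Fin N) =>
        σ (idx (v 2).1) (e (v 2).1) = (v 2).2 ∧ ∀ w ∈ T, ¬ Evt idx e w σ).card := ⟨_, rfl⟩
  have k1' : N * c0 ≤ c1 := by
    rw [hc0, hc1]; convert k1
  have k2' : N * c1 ≤ c2 := by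
    rw [hc1, hc2]; convert k2
  rw [← hc0]
  have k3' : N * c2 ≤ (univ.filter fun σ : Fin k → Equiv.Perm (Fin N) =>
      ∀ w ∈ T, ¬ Evt idx e w σ).card := by
    rw [hc2]; convert k3
  calc N ^ 3 * c0 = N * (N * (N * c0)) := by ring
    _ ≤ N * (N * c1) := Nat.mul_le_mul_left _ (Nat.mul_le_mul_left _ k1')
    _ ≤ N * c2 := Nat.mul_le_mul_left _ k2'
    _ ≤ _ := k3'


/-- the colouring when every point lies on exactly one line of the cover -/
theorem lll_colouring {k g : ℕ} (S : Finset Pt) (L : Fin k → Set Pt) (hL : ∀ i, IsLine (L i))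
    (idx : Pt → Fin k) (hidx : ∀ p ∈ S, ∀ i, p ∈ L i ↔ idx p = i)
    (hcard : ∀ i, (S.filter fun p => p ∈ L i).card ≤ 2 * g) (hg : 144 * k ^ 2 ≤ g) (hg1 : 1 ≤ g) :
    ∃ c : Pt → ℕ, (∀ p ∈ S, c p < g) ∧ ∀ i, GenPos (S.filter fun p => c p = i) := by
  have hfi : ∀ i, ∃ f : Pt → Fin (2 * g), ∀ p ∈ S, p ∈ L i → ∀ q ∈ S, q ∈ L i → f p = f q →
      p = q := by
    intro i
    obtain ⟨φ⟩ : Nonempty ((S.filter fun p => p ∈ L i) ↪ Fin (2 * g)) := by
      apply Function.Embedding.nonempty_of_card_le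
      rw [Fintype.card_coe, Fintype.card_fin]
      exact hcard i
    refine ⟨fun p => if h : p ∈ (S.filter fun p => p ∈ L i) then φ ⟨p, h⟩ else ⟨0, by omega⟩, ?_⟩
    intro p hp hpL q hq hqL hpq
    have h1 : p ∈ (S.filter fun p => p ∈ L i) := Finset.mem_filter.2 ⟨hp, hpL⟩
    have h2 : q ∈ (S.filter fun p => p ∈ L i) := Finset.mem_filter.2 ⟨hq, hqL⟩
    simp only [h1, h2, dif_pos] at hpq
    exact congrArg Subtype.val (φ.injective hpq)
  choose f hf using hfi
  set e : Pt → Fin (2 * g) := fun p => f (idx p) p with he_def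
  have he : ∀ p ∈ S, ∀ q ∈ S, idx p = idx q → e p = e q → p = q := by
    intro p hp q hq h1 h2
    refine hf (idx p) p hp ((hidx p hp _).2 rfl) q hq ((hidx q hq _).2 h1.symm) ?_
    simp only [he_def] at h2
    rw [h2, h1]
  set q : ℝ := 1 / ((2 * g : ℕ) : ℝ) ^ 3 with hq
  have hN2 : (2 : ℝ) ≤ ((2 * g : ℕ) : ℝ) := by
    have : 2 ≤ 2 * g := by omega
    exact_mod_cast this
  have hN0 : (0 : ℝ) < ((2 * g : ℕ) : ℝ) := by linarith
  have hq0 : 0 ≤ q := by positivity
  have hq2 : 2 * q < 1 := by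
    rw [hq, mul_one_div, div_lt_one (by positivity)]
    nlinarith [mul_self_nonneg (((2 * g : ℕ) : ℝ) - 2), mul_pos hN0 hN0]
  have key := H542.RK.P.lll (univ : Finset (Fin k → Equiv.Perm (Fin (2 * g))))
    (fun w σ => Evt idx e w σ) (Ev S idx) (Nb S idx e) (72 * k ^ 2 * (2 * g) ^ 2) q hq0 (by
      rw [hq, mul_one_div, div_le_one (by positivity)]
      have h1 : 4 * (72 * k ^ 2 * (2 * g) ^ 2) ≤ (2 * g) ^ 3 := by
        have : 4 * (72 * k ^ 2 * (2 * g) ^ 2) = (144 * k ^ 2) * 2 * (2 * g) ^ 2 := by ring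
        rw [this]
        calc (144 * k ^ 2) * 2 * (2 * g) ^ 2 ≤ g * 2 * (2 * g) ^ 2 :=
              Nat.mul_le_mul_right _ (Nat.mul_le_mul_right _ hg)
          _ = (2 * g) ^ 3 := by ring
      exact_mod_cast h1) hq2.le
    (fun v hv => card_Nb S L hL idx hidx e he v hv) (by
      intro v hv T hT hTn
      have h1 := hind_nat S idx e v hv T hT hTn
      have h2 : (((2 * g : ℕ) : ℝ)) ^ 3 * ((univ.filter fun σ : Fin k → Equiv.Perm (Fin (2 * g)) =>
        Evt idx e v σ ∧ ∀ w ∈ T, ¬ Evt idx e w σ).card : ℝ) ≤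
        ((univ.filter fun σ : Fin k → Equiv.Perm (Fin (2 * g)) =>
          ∀ w ∈ T, ¬ Evt idx e w σ).card : ℝ) := by exact_mod_cast h1
      rw [hq, one_div, inv_mul_eq_div, le_div_iff₀ (by positivity), mul_comm]
      exact h2)
  have hpos : 0 < (1 - 2 * q) ^ (Ev (N := 2 * g) S idx).card *
      (((univ : Finset (Fin k → Equiv.Perm (Fin (2 * g)))).card : ℕ) : ℝ) := by
    refine mul_pos (pow_pos (by linarith) _) ?_
    have : 0 < (univ : Finset (Fin k → Equiv.Perm (Fin (2 * g)))).card :=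
      Finset.card_pos.2 Finset.univ_nonempty
    exact_mod_cast this
  have hpos2 : 0 < (univ.filter fun σ : Fin k → Equiv.Perm (Fin (2 * g)) =>
      ∀ w ∈ Ev S idx, ¬ Evt idx e w σ).card := by
    have := lt_of_lt_of_le hpos key
    exact_mod_cast this
  obtain ⟨σ, hσ⟩ := Finset.card_pos.1 hpos2
  have hσ' := (Finset.mem_filter.1 hσ).2
  refine ⟨fun p => (σ (idx p) (e p)).val / 2, fun p _ => ?_, fun i => ?_⟩
  · have := (σ (idx p) (e p)).isLt
    show (σ (idx p) (e p)).val / 2 < g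
    omega
  · intro x hx y hy z hz hxy hyz hxz hM
    obtain ⟨M, hM, hxM, hyM, hzM⟩ := hM
    obtain ⟨hxS, hxi⟩ := Finset.mem_filter.1 hx
    obtain ⟨hyS, hyi⟩ := Finset.mem_filter.1 hy
    obtain ⟨hzS, hzi⟩ := Finset.mem_filter.1 hz
    replace hxi : (σ (idx x) (e x)).val / 2 = i := hxi
    replace hyi : (σ (idx y) (e y)).val / 2 = i := hyi
    replace hzi : (σ (idx z) (e z)).val / 2 = i := hzi
    -- two points on the same cover line force all three
    have haux : ∀ x y z : Pt, x ∈ S → y ∈ S → z ∈ S → x ≠ y → x ∈ M → y ∈ M → z ∈ M →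
        idx x = idx y → idx z = idx x := by
      intro x y z hx hy hz hxy hxM hyM hzM hxy'
      have : M = L (idx x) := line_unique hM (hL _) hxy hxM hyM ((hidx x hx _).2 rfl)
        ((hidx y hy _).2 hxy'.symm)
      rw [this] at hzM
      exact (hidx z hz _).1 hzM
    have hthree : ¬ (idx x = idx y ∧ idx y = idx z) := by
      rintro ⟨h1, h2⟩
      have n1 : (σ (idx x) (e x)).val ≠ (σ (idx y) (e y)).val := by
        intro h
        rw [h1] at h
        exact hxy (he x hxS y hyS h1 ((σ (idx y)).injective (Fin.ext h)))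
      have n2 : (σ (idx y) (e y)).val ≠ (σ (idx z) (e z)).val := by
        intro h
        rw [h2] at h
        exact hyz (he y hyS z hzS h2 ((σ (idx z)).injective (Fin.ext h)))
      have n3 : (σ (idx x) (e x)).val ≠ (σ (idx z) (e z)).val := by
        intro h
        rw [h1.trans h2] at h
        exact hxz (he x hxS z hzS (h1.trans h2) ((σ (idx z)).injective (Fin.ext h)))
      omega
    have hd1 : idx x ≠ idx y := fun h =>
      hthree ⟨h, h.symm.trans (haux x y z hxS hyS hzS hxy hxM hyM hzM h).symm⟩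
    have hd2 : idx y ≠ idx z := fun h =>
      hthree ⟨haux y z x hyS hzS hxS hyz hyM hzM hxM h, h⟩
    have hd3 : idx x ≠ idx z := fun h =>
      hd1 (haux x z y hxS hzS hyS hxz hxM hzM hyM h).symm
    refine hσ' ![(x, σ (idx x) (e x)), (y, σ (idx y) (e y)), (z, σ (idx z) (e z))] ?_ ?_
    · refine mem_Ev.2 ⟨?_, ?_, ⟨M, hM, ?_⟩, ?_⟩
      · intro a; fin_cases a <;> assumption
      · intro a b hab
        fin_cases a <;> fin_cases b <;>
          first
          | exact absurd rfl hab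
          | exact hd1
          | exact hd2
          | exact hd3
          | exact hd1.symm
          | exact hd2.symm
          | exact hd3.symm
      · intro a; fin_cases a <;> assumption
      · have g1 : ∀ a : Fin 3, ((![(x, σ (idx x) (e x)), (y, σ (idx y) (e y)),
            (z, σ (idx z) (e z))] : Fin 3 → Pt × Fin (2 * g)) a).2.val / 2 = i := by
          intro a; fin_cases a <;> assumption
        intro a b
        rw [g1 a, g1 b]
    · intro b
      fin_cases b <;> rfl

end Pool.Agent.V11161.GP
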