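import Pool.Agent.V11161.GPMain

set_option autoImplicit false

namespace Pool.Agent.V11161.GP

open Finset Classical

/-- the point with indices `(i, j)` of the example: `(i + 1, (i + 1) (j + 1))` -/
noncomputable def pt (t : ℕ × ℕ) : Pt := ((t.1 : ℝ) + 1, ((t.1 : ℝ) + 1) * ((t.2 : ℝ) + 1))

theorem pt_inj : Function.Injective pt := by
  intro t t' h
  unfold pt at h
  rw [Prod.mk.injEq] at h
  obtain ⟨h1, h2⟩ := h
  have h3 : (t.1 : ℝ) = t'.1 := by linarith
  have h4 : ((t.1 : ℝ) + 1) ≠ 0 := by positivity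
  rw [← h3] at h2
  have h5 : (t.2 : ℝ) + 1 = t'.2 + 1 := mul_left_cancel₀ h4 h2
  have h6 : (t.2 : ℝ) = t'.2 := by linarith
  exact Prod.ext (by exact_mod_cast h3) (by exact_mod_cast h6)

/-- the example: the origin and `k - 1` columns with `2 (k - 2)` points each -/
noncomputable def Exa (k : ℕ) : Finset Pt :=
  insert ((0, 0) : Pt) ((range (k - 1) ×ˢ range (2 * (k - 2))).image pt)

theorem mem_Exa {k : ℕ} {p : Pt} : p ∈ Exa k ↔ p = (0, 0) ∨
    ∃ i j, i < k - 1 ∧ j < 2 * (k - 2) ∧ pt (i, j) = p := by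
  unfold Exa
  rw [Finset.mem_insert, Finset.mem_image]
  refine or_congr_right ?_
  constructor
  · rintro ⟨⟨i, j⟩, h, rfl⟩
    rw [Finset.mem_product, Finset.mem_range, Finset.mem_range] at h
    exact ⟨i, j, h.1, h.2, rfl⟩
  · rintro ⟨i, j, h1, h2, rfl⟩
    exact ⟨(i, j), Finset.mem_product.2 ⟨Finset.mem_range.2 h1, Finset.mem_range.2 h2⟩, rfl⟩

theorem pt_ne_zero (t : ℕ × ℕ) : pt t ≠ (0, 0) := by
  intro h
  have h1 : (t.1 : ℝ) + 1 = 0 := congrArg Prod.fst h
  have : (0 : ℝ) ≤ t.1 := Nat.cast_nonneg _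
  linarith

theorem card_Exa (k : ℕ) : (Exa k).card = (k - 1) * (2 * (k - 2)) + 1 := by
  unfold Exa
  rw [Finset.card_insert_of_notMem, Finset.card_image_of_injective _ pt_inj, Finset.card_product,
    Finset.card_range, Finset.card_range]
  intro h
  obtain ⟨t, -, ht⟩ := Finset.mem_image.1 h
  exact pt_ne_zero t ht

theorem LC_Exa (k : ℕ) (hk : 1 ≤ k) : LC (Exa k) ≤ k := by
  refine Nat.sInf_le ⟨fun i => {p : Pt | p.1 = (i.val : ℝ)}, fun i => isLine_vert _, ?_⟩
  intro p hp
  rcases mem_Exa.1 hp with rfl | ⟨i, j, hi, hj, rfl⟩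
  · exact ⟨⟨0, hk⟩, by simp⟩
  · refine ⟨⟨i + 1, by omega⟩, ?_⟩
    simp [pt]

theorem onLine_Exa (k : ℕ) (hk : 4 ≤ k) : onLine (Exa k) ≤ 2 * (k - 2) := by
  obtain ⟨L, ⟨a, b, c, hab, rfl⟩, hLc⟩ := exists_onLine (Exa k)
  rw [← hLc]
  by_cases hb : b = 0
  · have ha : a ≠ 0 := hab.resolve_right (fun h => h hb)
    by_cases hemp : ((Exa k).filter fun p => p ∈ {p : Pt | a * p.1 + b * p.2 = c}) = ∅
    · rw [hemp]; simp
    · obtain ⟨p0, hp0⟩ := Finset.nonempty_iff_ne_empty.2 hemp
      have hsame : ∀ p ∈ ((Exa k).filter fun p => p ∈ {p : Pt | a * p.1 + b * p.2 = c}),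
          p.1 = p0.1 := by
        intro p hp
        have h1 := (Finset.mem_filter.1 hp).2
        have h2 := (Finset.mem_filter.1 hp0).2
        rw [Set.mem_ofPred_eq, hb] at h1 h2
        have : a * (p.1 - p0.1) = 0 := by linarith
        rcases mul_eq_zero.1 this with h | h
        · exact absurd h ha
        · linarith
      rcases mem_Exa.1 (Finset.mem_filter.1 hp0).1 with h0 | ⟨i0, j0, hi0, hj0, h0⟩
      · have hsub : ((Exa k).filter fun p => p ∈ {p : Pt | a * p.1 + b * p.2 = c}) ⊆ {(0, 0)} := by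
          intro p hp
          rw [Finset.mem_singleton]
          rcases mem_Exa.1 (Finset.mem_filter.1 hp).1 with h1 | ⟨i, j, -, -, h1⟩
          · exact h1
          · have h2 := hsame p hp
            rw [h0, ← h1] at h2
            simp only [pt] at h2
            have : (0 : ℝ) ≤ i := Nat.cast_nonneg _
            linarith
        refine (Finset.card_le_card hsub).trans ?_
        rw [Finset.card_singleton]
        omega
      · have hsub : ((Exa k).filter fun p => p ∈ {p : Pt | a * p.1 + b * p.2 = c}) ⊆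
            (range (2 * (k - 2))).image fun j => pt (i0, j) := by
          intro p hp
          rw [Finset.mem_image]
          rcases mem_Exa.1 (Finset.mem_filter.1 hp).1 with h1 | ⟨i, j, hi, hj, h1⟩
          · have h2 := hsame p hp
            rw [← h0, h1] at h2
            simp only [pt] at h2
            have : (0 : ℝ) ≤ i0 := Nat.cast_nonneg _
            linarith
          · have h2 := hsame p hp
            rw [← h0, ← h1] at h2
            simp only [pt] at h2
            have h3 : (i : ℝ) = i0 := by linarith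
            have h4 : i = i0 := by exact_mod_cast h3
            exact ⟨j, Finset.mem_range.2 hj, by rw [← h4]; exact h1⟩
        refine (Finset.card_le_card hsub).trans (Finset.card_image_le.trans ?_)
        rw [Finset.card_range]
  · have h1 : ((Exa k).filter fun p => p ∈ {p : Pt | a * p.1 + b * p.2 = c}).card ≤
        ((range k).image fun i : ℕ => (i : ℝ)).card := by
      refine Finset.card_le_card_of_injOn (fun p => p.1) ?_ ?_
      · intro p hp
        rw [Finset.mem_coe] at hp ⊢
        rw [Finset.mem_image]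
        rcases mem_Exa.1 (Finset.mem_filter.1 hp).1 with h1 | ⟨i, j, hi, hj, h1⟩
        · exact ⟨0, Finset.mem_range.2 (by omega), by rw [h1]; simp⟩
        · exact ⟨i + 1, Finset.mem_range.2 (by omega), by rw [← h1]; simp [pt]⟩
      · intro p hp q hq hpq
        have h1 := (Finset.mem_filter.1 (Finset.mem_coe.1 hp)).2
        have h2 := (Finset.mem_filter.1 (Finset.mem_coe.1 hq)).2
        rw [Set.mem_ofPred_eq] at h1 h2
        simp only at hpq
        rw [hpq] at h1
        have : b * (p.2 - q.2) = 0 := by linarith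
        rcases mul_eq_zero.1 this with h | h
        · exact absurd h hb
        · exact Prod.ext hpq (by linarith)
    refine h1.trans (Finset.card_image_le.trans ?_)
    rw [Finset.card_range]
    omega

theorem GP_Exa (k : ℕ) (hk : 4 ≤ k) : k - 1 ≤ GPnum (Exa k) := by
  by_contra hcon
  push Not at hcon
  obtain ⟨c, hc1, hc2⟩ := gp_spec (Exa k)
  set G := GPnum (Exa k) with hG
  set T := range (k - 1) ×ˢ range (2 * (k - 2)) with hT
  have h0 : ((0, 0) : Pt) ∈ Exa k := mem_Exa.2 (Or.inl rfl)
  have hTm : ∀ t ∈ T, pt t ∈ Exa k := by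
    intro t ht
    rw [hT, Finset.mem_product, Finset.mem_range, Finset.mem_range] at ht
    exact mem_Exa.2 (Or.inr ⟨t.1, t.2, ht.1, ht.2, rfl⟩)
  have ha0 : c (0, 0) < G := hc1 _ h0
  have hsum : T.card = ∑ a ∈ range G, (T.filter fun t => c (pt t) = a).card :=
    Finset.card_eq_sum_card_fiberwise fun t ht =>
      Finset.mem_coe.2 (Finset.mem_range.2 (hc1 _ (hTm t (Finset.mem_coe.1 ht))))
  have hother : ∀ a, (T.filter fun t => c (pt t) = a).card ≤ 2 * (k - 1) := by
    intro a
    have h1 : (T.filter fun t => c (pt t) = a).card ≤ 2 * (range (k - 1)).card := by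
      refine Finset.card_le_mul_card_image_of_maps_to (f := Prod.fst) ?_ 2 ?_
      · intro t ht
        exact (Finset.mem_product.1 (Finset.mem_filter.1 ht).1).1
      · intro i _
        refine le_trans ?_ ((hc2 a).line (isLine_vert ((i : ℝ) + 1)))
        refine Finset.card_le_card_of_injOn pt ?_ pt_inj.injOn
        intro t ht
        rw [Finset.mem_coe, Finset.mem_filter] at ht
        obtain ⟨h2, h3⟩ := ht
        obtain ⟨h4, h5⟩ := Finset.mem_filter.1 h2
        refine Finset.mem_coe.2 (Finset.mem_filter.2 ⟨Finset.mem_filter.2 ⟨hTm t h4, h5⟩, ?_⟩)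
        rw [Set.mem_ofPred_eq, ← h3]
        rfl
    rwa [Finset.card_range] at h1
  have hfirst : (T.filter fun t => c (pt t) = c (0, 0)).card ≤ 2 * (k - 2) := by
    have h1 : (T.filter fun t => c (pt t) = c (0, 0)).card ≤ (range (2 * (k - 2))).card := by
      refine Finset.card_le_card_of_injOn Prod.snd ?_ ?_
      · intro t ht
        rw [Finset.mem_coe] at ht ⊢
        exact (Finset.mem_product.1 (Finset.mem_filter.1 ht).1).2
      · intro t ht t' ht' htt
        rw [Finset.mem_coe, Finset.mem_filter] at ht ht'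
        by_contra hne
        refine hc2 (c (0, 0)) (0, 0) (Finset.mem_filter.2 ⟨h0, rfl⟩) (pt t)
          (Finset.mem_filter.2 ⟨hTm t ht.1, ht.2⟩) (pt t')
          (Finset.mem_filter.2 ⟨hTm t' ht'.1, ht'.2⟩) (pt_ne_zero t).symm
          (fun h => hne (pt_inj h)) (pt_ne_zero t').symm
          ⟨{p : Pt | ((t.2 : ℝ) + 1) * p.1 + (-1) * p.2 = 0},
            ⟨(t.2 : ℝ) + 1, -1, 0, Or.inr (by norm_num), rfl⟩, ?_, ?_, ?_⟩
        · rw [Set.mem_ofPred_eq]; simp
        · rw [Set.mem_ofPred_eq]; simp only [pt]; ring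
        · rw [Set.mem_ofPred_eq, htt]; simp only [pt]; ring
    rwa [Finset.card_range] at h1
  have hTc : T.card = (k - 1) * (2 * (k - 2)) := by
    rw [hT, Finset.card_product, Finset.card_range, Finset.card_range]
  have hle : ∑ a ∈ range G, (T.filter fun t => c (pt t) = a).card ≤
      2 * (k - 2) + (G - 1) * (2 * (k - 1)) := by
    rw [← Finset.add_sum_erase _ _ (Finset.mem_range.2 ha0)]
    refine Nat.add_le_add hfirst ?_
    refine (Finset.sum_le_card_nsmul _ _ (2 * (k - 1)) fun a _ => hother a).trans ?_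
    rw [Finset.card_erase_of_mem (Finset.mem_range.2 ha0), Finset.card_range, smul_eq_mul]
  obtain ⟨q, rfl⟩ : ∃ q, k = q + 4 := ⟨k - 4, by omega⟩
  have hG1 : G - 1 ≤ q + 1 := by omega
  have h3 : (G - 1) * (2 * (q + 4 - 1)) ≤ (q + 1) * (2 * (q + 4 - 1)) :=
    Nat.mul_le_mul_right _ hG1
  have e1 : q + 4 - 1 = q + 3 := by omega
  have e2 : q + 4 - 2 = q + 2 := by omega
  rw [e1] at h3 hTc hle
  rw [e2] at hTc hle
  have h4 : (q + 3) * (2 * (q + 2)) ≤ 2 * (q + 2) + (q + 1) * (2 * (q + 3)) := by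
    rw [← hTc, hsum]
    exact hle.trans (Nat.add_le_add_left h3 _)
  nlinarith

end Pool.Agent.V11161.GP
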