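import Pool.Agent.V11161.GPLLL

set_option autoImplicit false

namespace Pool.Agent.V11161.GP

open Finset Classical

theorem GenPos.mono {C D : Finset Pt} (hD : GenPos D) (h : C ⊆ D) : GenPos C :=
  fun x hx y hy z hz => hD x (h hx) y (h hy) z (h hz)

theorem GenPos.line {C : Finset Pt} (hC : GenPos C) {L : Set Pt} (hL : IsLine L) :
    (C.filter fun p => p ∈ L).card ≤ 2 := by
  by_contra hcon
  push Not at hcon
  obtain ⟨a, ha, b, hb, c, hc, hab, hac, hbc⟩ := Finset.two_lt_card.1 hcon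
  rw [Finset.mem_filter] at ha hb hc
  exact hC a ha.1 b hb.1 c hc.1 hab hbc hac ⟨L, hL, ha.2, hb.2, hc.2⟩

theorem max_class {k : ℕ} (S : Finset Pt) (L : Fin k → Set Pt) (hL : ∀ i, IsLine (L i))
    (hcov : ∀ p ∈ S, ∃ i, p ∈ L i) (z : Pt) (hz : z ∈ S) :
    ∃ C ⊆ S, z ∈ C ∧ GenPos C ∧ ∀ i, 4 * k ^ 2 + 2 ≤ (S.filter fun p => p ∈ L i).card →
      2 ≤ (C.filter fun p => p ∈ L i).card := by
  have hne : (S.powerset.filter fun C => z ∈ C ∧ GenPos C).Nonempty := by
    refine ⟨{z}, Finset.mem_filter.2 ⟨Finset.mem_powerset.2 (Finset.singleton_subset_iff.2 hz),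
      Finset.mem_singleton_self z, ?_⟩⟩
    intro x hx y hy w hw hxy
    rw [Finset.mem_singleton] at hx hy
    exact absurd (hx.trans hy.symm) hxy
  obtain ⟨C, hC, hmax⟩ := Finset.exists_max_image _ Finset.card hne
  rw [Finset.mem_filter, Finset.mem_powerset] at hC
  obtain ⟨hCS, hzC, hCG⟩ := hC
  refine ⟨C, hCS, hzC, hCG, fun i hi => ?_⟩
  by_contra hcon
  push Not at hcon
  -- the class has at most `2k` points
  have hC2k : C.card ≤ 2 * k := by
    have hcov' : ∀ p ∈ C, ∃ i, p ∈ L i := fun p hp => hcov p (hCS hp)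
    have h1 : C ⊆ (univ : Finset (Fin k)).biUnion fun i => C.filter fun p => p ∈ L i := by
      intro p hp
      obtain ⟨i, hi⟩ := hcov' p hp
      exact Finset.mem_biUnion.2 ⟨i, mem_univ _, Finset.mem_filter.2 ⟨hp, hi⟩⟩
    refine (Finset.card_le_card h1).trans ?_
    refine (Finset.card_biUnion_le_card_mul _ _ 2 fun i _ => hCG.line (hL i)).trans ?_
    rw [Finset.card_univ, Fintype.card_fin]
    omega
  -- outside points are blocked by a pair
  have hblock : ∀ x ∈ (S.filter fun p => p ∈ L i) \ C, ∃ yy : Pt × Pt, yy ∈ C ×ˢ C ∧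
      yy.1 ≠ yy.2 ∧ ∃ M, IsLine M ∧ x ∈ M ∧ yy.1 ∈ M ∧ yy.2 ∈ M := by
    intro x hx
    rw [Finset.mem_sdiff, Finset.mem_filter] at hx
    obtain ⟨⟨hxS, hxL⟩, hxC⟩ := hx
    by_contra hno
    push Not at hno
    have hG : GenPos (insert x C) := by
      intro a ha b hb c hc hab hbc hac hM
      obtain ⟨M, hM, haM, hbM, hcM⟩ := hM
      rw [Finset.mem_insert] at ha hb hc
      rcases ha with rfl | ha
      · have hb' : b ∈ C := hb.resolve_left (fun h => hab h.symm)
        have hc' : c ∈ C := hc.resolve_left (fun h => hac h.symm)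
        exact hno (b, c) (Finset.mem_product.2 ⟨hb', hc'⟩) hbc M hM haM hbM hcM
      · rcases hb with rfl | hb
        · have hc' : c ∈ C := hc.resolve_left (fun h => hbc h.symm)
          exact hno (a, c) (Finset.mem_product.2 ⟨ha, hc'⟩) hac M hM hbM haM hcM
        · rcases hc with rfl | hc
          · exact hno (a, b) (Finset.mem_product.2 ⟨ha, hb⟩) hab M hM hcM haM hbM
          · exact hCG a ha b hb c hc hab hbc hac ⟨M, hM, haM, hbM, hcM⟩
    have h1 := hmax (insert x C) (Finset.mem_filter.2 ⟨Finset.mem_powerset.2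
      (Finset.insert_subset hxS hCS), Finset.mem_insert_of_mem hzC, hG⟩)
    rw [Finset.card_insert_of_notMem hxC] at h1
    omega
  choose! f hf using hblock
  have hcard : ((S.filter fun p => p ∈ L i) \ C).card ≤ (C ×ˢ C).card := by
    refine Finset.card_le_card_of_injOn f (fun x hx => Finset.mem_coe.2
      (hf x (Finset.mem_coe.1 hx)).1) ?_
    intro x hx x' hx' hxx
    by_contra hne'
    obtain ⟨h1, h2, M, hM, hxM, h3, h4⟩ := hf x (Finset.mem_coe.1 hx)
    obtain ⟨h1', h2', M', hM', hxM', h3', h4'⟩ := hf x' (Finset.mem_coe.1 hx')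
    rw [← hxx] at h3' h4'
    have hMM : M = M' := line_unique hM hM' h2 h3 h4 h3' h4'
    have hx1 := Finset.mem_filter.1 (Finset.mem_sdiff.1 (Finset.mem_coe.1 hx)).1
    have hx2 := Finset.mem_filter.1 (Finset.mem_sdiff.1 (Finset.mem_coe.1 hx')).1
    have hML : M = L i := line_unique hM (hL i) hne' hxM (by rw [hMM]; exact hxM') hx1.2 hx2.2
    rw [hML] at h3 h4
    have h5 : 2 ≤ (C.filter fun p => p ∈ L i).card := by
      have h6 : ({(f x).1, (f x).2} : Finset Pt) ⊆ C.filter fun p => p ∈ L i := by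
        intro w hw
        rw [Finset.mem_insert, Finset.mem_singleton] at hw
        rcases hw with rfl | rfl
        · exact Finset.mem_filter.2 ⟨(Finset.mem_product.1 h1).1, h3⟩
        · exact Finset.mem_filter.2 ⟨(Finset.mem_product.1 h1).2, h4⟩
      have h7 := Finset.card_le_card h6
      rwa [Finset.card_pair h2] at h7
    omega
  have h8 : (S.filter fun p => p ∈ L i).card ≤
      ((S.filter fun p => p ∈ L i) \ C).card + (C.filter fun p => p ∈ L i).card := by
    have h9 : (S.filter fun p => p ∈ L i) ⊆ ((S.filter fun p => p ∈ L i) \ C) ∪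
        (C.filter fun p => p ∈ L i) := by
      intro w hw
      by_cases hwC : w ∈ C
      · exact Finset.mem_union_right _ (Finset.mem_filter.2 ⟨hwC, (Finset.mem_filter.1 hw).2⟩)
      · exact Finset.mem_union_left _ (Finset.mem_sdiff.2 ⟨hw, hwC⟩)
    exact (Finset.card_le_card h9).trans (Finset.card_union_le _ _)
  rw [Finset.card_product] at hcard
  have h10 : C.card * C.card ≤ (2 * k) * (2 * k) := Nat.mul_le_mul hC2k hC2k
  have h11 : (2 * k) * (2 * k) = 4 * k ^ 2 := by ring
  omega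

theorem main_ind {k : ℕ} (hk : 1 ≤ k) (L : Fin k → Set Pt) (hL : ∀ i, IsLine (L i)) :
    ∀ (n : ℕ) (S : Finset Pt) (g : ℕ),
      (S.filter fun p => ∃ i j, i ≠ j ∧ p ∈ L i ∧ p ∈ L j).card ≤ n →
      (∀ p ∈ S, ∃ i, p ∈ L i) → (∀ i, (S.filter fun p => p ∈ L i).card ≤ 2 * g) →
      n + 144 * k ^ 2 ≤ g →
      ∃ c : Pt → ℕ, (∀ p ∈ S, c p < g) ∧ ∀ i, GenPos (S.filter fun p => c p = i) := by
  intro n
  induction n with
  | zero =>
    intro S g hZ hcov hcard hg
    have hZ' : (S.filter fun p => ∃ i j, i ≠ j ∧ p ∈ L i ∧ p ∈ L j) = ∅ :=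
      Finset.card_eq_zero.1 (Nat.le_zero.1 hZ)
    have : Nonempty (Fin k) := ⟨⟨0, hk⟩⟩
    choose! idx hidx using hcov
    refine lll_colouring S L hL (fun p => if h : p ∈ S then idx p else ⟨0, hk⟩) ?_ hcard (by omega)
      (by
        have : 1 ≤ k ^ 2 := Nat.one_le_pow _ _ hk
        omega)
    intro p hp i
    simp only [hp, dif_pos]
    constructor
    · intro h
      by_contra hne
      have : p ∈ (S.filter fun p => ∃ i j, i ≠ j ∧ p ∈ L i ∧ p ∈ L j) :=
        Finset.mem_filter.2 ⟨hp, idx p, i, hne, hidx p hp, h⟩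
      rw [hZ'] at this
      exact absurd this (Finset.notMem_empty p)
    · intro h
      rw [← h]
      exact hidx p hp
  | succ n ih =>
    intro S g hZ hcov hcard hg
    by_cases hemp : (S.filter fun p => ∃ i j, i ≠ j ∧ p ∈ L i ∧ p ∈ L j) = ∅
    · exact ih S g (by rw [hemp]; simp) hcov hcard (by omega)
    · obtain ⟨z, hz⟩ := Finset.nonempty_iff_ne_empty.2 hemp
      obtain ⟨hzS, hzZ⟩ := Finset.mem_filter.1 hz
      obtain ⟨C, hCS, hzC, hCG, hC2⟩ := max_class S L hL hcov z hzS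
      have hk2 : 1 ≤ k ^ 2 := Nat.one_le_pow _ _ hk
      obtain ⟨c', hc'1, hc'2⟩ := ih (S \ C) (g - 1) (by
          have h1 : ((S \ C).filter fun p => ∃ i j, i ≠ j ∧ p ∈ L i ∧ p ∈ L j) ⊆
              (S.filter fun p => ∃ i j, i ≠ j ∧ p ∈ L i ∧ p ∈ L j).erase z := by
            intro w hw
            obtain ⟨hw1, hw2⟩ := Finset.mem_filter.1 hw
            obtain ⟨hw3, hw4⟩ := Finset.mem_sdiff.1 hw1
            refine Finset.mem_erase.2 ⟨?_, Finset.mem_filter.2 ⟨hw3, hw2⟩⟩
            rintro rfl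
            exact hw4 hzC
          have h2 := Finset.card_le_card h1
          rw [Finset.card_erase_of_mem hz] at h2
          omega) (fun p hp => hcov p (Finset.mem_sdiff.1 hp).1) (by
          intro i
          have h0 := hcard i
          have h1 : ((S \ C).filter fun p => p ∈ L i).card +
              (C.filter fun p => p ∈ L i).card ≤ (S.filter fun p => p ∈ L i).card := by
            rw [← Finset.card_union_of_disjoint]
            · refine Finset.card_le_card ?_
              intro w hw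
              rcases Finset.mem_union.1 hw with hw | hw
              · obtain ⟨hw1, hw2⟩ := Finset.mem_filter.1 hw
                exact Finset.mem_filter.2 ⟨(Finset.mem_sdiff.1 hw1).1, hw2⟩
              · obtain ⟨hw1, hw2⟩ := Finset.mem_filter.1 hw
                exact Finset.mem_filter.2 ⟨hCS hw1, hw2⟩
            · rw [Finset.disjoint_left]
              intro w hw hw'
              exact (Finset.mem_sdiff.1 (Finset.mem_filter.1 hw).1).2 (Finset.mem_filter.1 hw').1
          by_cases h2 : 4 * k ^ 2 + 2 ≤ (S.filter fun p => p ∈ L i).card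
          · have h3 := hC2 i h2
            omega
          · omega) (by omega)
      refine ⟨fun p => if p ∈ C then g - 1 else c' p, ?_, ?_⟩
      · intro p hp
        by_cases hpC : p ∈ C
        · simp only [hpC, if_true]
          omega
        · simp only [hpC, if_false]
          have := hc'1 p (Finset.mem_sdiff.2 ⟨hp, hpC⟩)
          omega
      · intro i
        by_cases hi : i = g - 1
        · refine hCG.mono ?_
          intro w hw
          obtain ⟨hw1, hw2⟩ := Finset.mem_filter.1 hw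
          by_contra hwC
          simp only [hwC, if_false] at hw2
          have := hc'1 w (Finset.mem_sdiff.2 ⟨hw1, hwC⟩)
          omega
        · refine (hc'2 i).mono ?_
          intro w hw
          obtain ⟨hw1, hw2⟩ := Finset.mem_filter.1 hw
          by_cases hwC : w ∈ C
          · simp only [hwC, if_true] at hw2
            exact absurd hw2.symm hi
          · simp only [hwC, if_false] at hw2
            exact Finset.mem_filter.2 ⟨Finset.mem_sdiff.2 ⟨hw1, hwC⟩, hw2⟩

theorem card_special {k : ℕ} (S : Finset Pt) (L : Fin k → Set Pt) (hL : ∀ i, IsLine (L i))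
    (hinj : Function.Injective L) :
    (S.filter fun p => ∃ i j, i ≠ j ∧ p ∈ L i ∧ p ∈ L j).card ≤ k ^ 2 := by
  have h0 : ∀ p ∈ (S.filter fun p => ∃ i j, i ≠ j ∧ p ∈ L i ∧ p ∈ L j),
      ∃ ij : Fin k × Fin k, ij.1 ≠ ij.2 ∧ p ∈ L ij.1 ∧ p ∈ L ij.2 := by
    intro p hp
    obtain ⟨-, i, j, hij, h1, h2⟩ := Finset.mem_filter.1 hp
    exact ⟨(i, j), hij, h1, h2⟩
  by_cases hk : k = 0
  · subst hk
    have : (S.filter fun p => ∃ i j, i ≠ j ∧ p ∈ L i ∧ p ∈ L j) = ∅ := by
      rw [Finset.eq_empty_iff_forall_notMem]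
      intro p hp
      obtain ⟨ij, -⟩ := h0 p hp
      exact ij.1.elim0
    rw [this]
    simp
  have : Nonempty (Fin k × Fin k) := ⟨(⟨0, by omega⟩, ⟨0, by omega⟩)⟩
  choose! f hf using h0
  have h1 : (S.filter fun p => ∃ i j, i ≠ j ∧ p ∈ L i ∧ p ∈ L j).card ≤
      (univ : Finset (Fin k × Fin k)).card := by
    refine Finset.card_le_card_of_injOn f (fun _ _ => Finset.mem_coe.2 (mem_univ _)) ?_
    intro p hp q hq hpq
    by_contra hne
    obtain ⟨h1, h2, h3⟩ := hf p (Finset.mem_coe.1 hp)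
    obtain ⟨h1', h2', h3'⟩ := hf q (Finset.mem_coe.1 hq)
    rw [← hpq] at h2' h3'
    exact h1 (hinj (line_unique (hL _) (hL _) hne h2 h2' h3 h3'))
  rw [Finset.card_univ, Fintype.card_prod, Fintype.card_fin] at h1
  rw [pow_two]
  exact h1

theorem onLine_le (S : Finset Pt) {L : Set Pt} (hL : IsLine L) :
    (S.filter fun p => p ∈ L).card ≤ onLine S := by
  refine le_csSup ⟨S.card, ?_⟩ ⟨L, hL, rfl⟩
  rintro n ⟨L, -, rfl⟩
  exact Finset.card_filter_le _ _

theorem isLine_vert (a : ℝ) : IsLine {p : Pt | p.1 = a} :=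
  ⟨1, 0, a, Or.inl one_ne_zero, by ext p; simp⟩

theorem exists_onLine (S : Finset Pt) :
    ∃ L, IsLine L ∧ (S.filter fun p => p ∈ L).card = onLine S := by
  refine Nat.sSup_mem (s := {n | ∃ L, IsLine L ∧ (S.filter fun p => p ∈ L).card = n})
    ⟨_, _, isLine_vert 0, rfl⟩ ⟨S.card, ?_⟩
  rintro n ⟨L, -, rfl⟩
  exact Finset.card_filter_le _ _

theorem gp_nonempty (S : Finset Pt) :
    {g | ∃ c : Pt → ℕ, (∀ p ∈ S, c p < g) ∧ ∀ i, GenPos (S.filter fun p => c p = i)}.Nonempty := by
  refine ⟨S.card, fun p => if h : p ∈ S then (S.equivFin ⟨p, h⟩).val else 0, ?_, ?_⟩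
  · intro p hp
    simp only [hp, dif_pos]
    exact (S.equivFin ⟨p, hp⟩).isLt
  · intro i x hx y hy z hz hxy
    obtain ⟨hx1, hx2⟩ := Finset.mem_filter.1 hx
    obtain ⟨hy1, hy2⟩ := Finset.mem_filter.1 hy
    simp only [hx1, dif_pos] at hx2
    simp only [hy1, dif_pos] at hy2
    have := S.equivFin.injective (Fin.ext (hx2.trans hy2.symm))
    exact absurd (congrArg Subtype.val this) hxy

theorem gp_spec (S : Finset Pt) :
    ∃ c : Pt → ℕ, (∀ p ∈ S, c p < GPnum S) ∧ ∀ i, GenPos (S.filter fun p => c p = i) :=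
  Nat.sInf_mem (gp_nonempty S)

theorem onLine_le_two_mul (S : Finset Pt) : onLine S ≤ 2 * GPnum S := by
  obtain ⟨L, hL, hLc⟩ := exists_onLine S
  obtain ⟨c, hc1, hc2⟩ := gp_spec S
  rw [← hLc]
  have h1 : (S.filter fun p => p ∈ L).card ≤ 2 * (range (GPnum S)).card := by
    refine Finset.card_le_mul_card_image_of_maps_to (f := c) (t := range (GPnum S)) ?_ 2 ?_
    · intro p hp
      exact Finset.mem_range.2 (hc1 p (Finset.mem_filter.1 hp).1)
    · intro i _
      refine le_trans (Finset.card_le_card ?_) ((hc2 i).line hL)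
      intro w hw
      obtain ⟨hw1, hw2⟩ := Finset.mem_filter.1 hw
      obtain ⟨hw3, hw4⟩ := Finset.mem_filter.1 hw1
      exact Finset.mem_filter.2 ⟨Finset.mem_filter.2 ⟨hw3, hw2⟩, hw4⟩
  rwa [Finset.card_range] at h1

theorem exists_cover (S : Finset Pt) :
    ∃ (c : ℕ) (L : Fin c → Set Pt), c ≤ LC S ∧ Function.Injective L ∧ (∀ i, IsLine (L i)) ∧
      ∀ p ∈ S, ∃ i, p ∈ L i := by
  have hne : {k | ∃ L : Fin k → Set Pt, (∀ i, IsLine (L i)) ∧ ∀ p ∈ S, ∃ i, p ∈ L i}.Nonempty := by
    refine ⟨S.card, fun i => {p : Pt | p.1 = ((S.equivFin.symm i).1).1},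
      fun i => isLine_vert _, fun p hp => ⟨S.equivFin ⟨p, hp⟩, ?_⟩⟩
    simp
  obtain ⟨L, hL, hcov⟩ := Nat.sInf_mem hne
  set F : Finset (Set Pt) := univ.image L with hF
  refine ⟨F.card, fun i => (F.equivFin.symm i).1, ?_, ?_, ?_, ?_⟩
  · refine Finset.card_image_le.trans (le_of_eq ?_)
    rw [Finset.card_univ, Fintype.card_fin]
    rfl
  · intro i j hij
    exact F.equivFin.symm.injective (Subtype.ext hij)
  · intro i
    obtain ⟨j, -, hj⟩ := Finset.mem_image.1 (F.equivFin.symm i).2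
    show IsLine (F.equivFin.symm i).1
    rw [← hj]
    exact hL j
  · intro p hp
    obtain ⟨i, hi⟩ := hcov p hp
    have hm : L i ∈ F := Finset.mem_image.2 ⟨i, mem_univ _, rfl⟩
    refine ⟨F.equivFin ⟨L i, hm⟩, ?_⟩
    simp only [Equiv.symm_apply_apply]
    exact hi

theorem upper (k : ℕ) (hk : 1 ≤ k) (S : Finset Pt) (hS : LC S ≤ k) (hcard : 290 * k ^ 3 ≤ S.card) :
    GPnum S = (onLine S + 1) / 2 := by
  obtain ⟨c, L, hc, hinj, hL, hcov⟩ := exists_cover S
  have hck : c ≤ k := hc.trans hS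
  have hSm : S.card ≤ c * onLine S := by
    have h1 : S ⊆ (univ : Finset (Fin c)).biUnion fun i => S.filter fun p => p ∈ L i := by
      intro p hp
      obtain ⟨i, hi⟩ := hcov p hp
      exact Finset.mem_biUnion.2 ⟨i, mem_univ _, Finset.mem_filter.2 ⟨hp, hi⟩⟩
    refine (Finset.card_le_card h1).trans ?_
    refine (Finset.card_biUnion_le_card_mul _ _ (onLine S) fun i _ => onLine_le S (hL i)).trans ?_
    rw [Finset.card_univ, Fintype.card_fin]
  have hc1 : 1 ≤ c := by
    by_contra h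
    have h0 : c = 0 := by omega
    have h2 : 1 ≤ k ^ 3 := Nat.one_le_pow _ _ hk
    rw [h0, zero_mul] at hSm
    omega
  have hm : 290 * k ^ 2 ≤ onLine S := by
    have h1 : k * (290 * k ^ 2) ≤ k * onLine S := by
      calc k * (290 * k ^ 2) = 290 * k ^ 3 := by ring
        _ ≤ S.card := hcard
        _ ≤ c * onLine S := hSm
        _ ≤ k * onLine S := Nat.mul_le_mul_right _ hck
    exact Nat.le_of_mul_le_mul_left h1 hk
  have hck2 : c ^ 2 ≤ k ^ 2 := Nat.pow_le_pow_left hck 2
  obtain ⟨col, hcol1, hcol2⟩ := main_ind hc1 L hL (c ^ 2) S ((onLine S + 1) / 2)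
    (card_special S L hL hinj) hcov (fun i => (onLine_le S (hL i)).trans (by omega)) (by omega)
  have h1 : GPnum S ≤ (onLine S + 1) / 2 := Nat.sInf_le ⟨col, hcol1, hcol2⟩
  have h2 := onLine_le_two_mul S
  omega

end Pool.Agent.V11161.GP
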